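import Pool.Agent.H971R3.Defs

/-!
# A fat carpet: definition, holes, detours
-/

namespace Pool.Agent.H971R3

open Set

/-- half of the (odd) subdivision factor of level `n` -/
def cc (n : ℕ) : ℤ := 64 * 4 ^ n

/-- `BB n` is the number of cells of level `n` in the unit interval. -/
def BB : ℕ → ℤ
  | 0 => 1
  | n + 1 => BB n * (2 * cc n + 1)

theorem cc_pos (n : ℕ) : 0 < cc n := by unfold cc; positivity

theorem BB_pos (n : ℕ) : 0 < BB n := by
  induction n with
  | zero => simp [BB]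
  | succ n ih =>
    have := cc_pos n
    simp only [BB]
    positivity

theorem BB_dvd {n m : ℕ} (h : n ≤ m) : BB n ∣ BB m := by
  induction m, h using Nat.le_induction with
  | base => exact dvd_refl _
  | succ m _ ih => exact ih.trans (Dvd.intro _ rfl)

theorem BBR_pos (n : ℕ) : (0 : ℝ) < BB n := by exact_mod_cast BB_pos n

/-- The union of the open middle cells of level `n + 1`. -/
def UU (n : ℕ) : Set ℝ :=
  {x | ∃ k : ℤ, ((k * (2 * cc n + 1) + cc n : ℤ) : ℝ) / BB (n + 1) < x ∧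
    x < ((k * (2 * cc n + 1) + cc n + 1 : ℤ) : ℝ) / BB (n + 1)}

/-- The carpet in the plane. -/
def SS : Set (ℝ × ℝ) :=
  {p | p.1 ∈ Icc (0 : ℝ) 1 ∧ p.2 ∈ Icc (0 : ℝ) 1 ∧ ∀ n, ¬ (p.1 ∈ UU n ∧ p.2 ∈ UU n)}

theorem SS_swap {p : ℝ × ℝ} (hp : p ∈ SS) : p.swap ∈ SS :=
  ⟨hp.2.1, hp.1, fun n h => hp.2.2 n ⟨h.2, h.1⟩⟩

/-- Multiples of `1 / BB j` are never in `UU m` when `j ≤ m + 1`. -/
theorem mult_not_mem {j m : ℕ} (h : j ≤ m + 1) (a : ℤ) : ((a : ℤ) : ℝ) / BB j ∉ UU m := by
  rintro ⟨k, h1, h2⟩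
  obtain ⟨c, hc⟩ := BB_dvd h
  have hj := BBR_pos j
  have hm := BBR_pos (m + 1)
  have hc' : ((BB (m + 1) : ℤ) : ℝ) = BB j * c := by exact_mod_cast hc
  have e : ((a : ℤ) : ℝ) / BB j = ((a * c : ℤ) : ℝ) / BB (m + 1) := by
    rw [hc']
    have hc0 : (c : ℝ) ≠ 0 := by
      intro h0
      rw [h0, mul_zero] at hc'
      rw [hc'] at hm
      exact lt_irrefl _ hm
    push_cast
    field_simp
  rw [e, div_lt_div_iff_of_pos_right hm] at h1 h2
  have h1' : k * (2 * cc m + 1) + cc m < a * c := by exact_mod_cast h1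
  have h2' : a * c < k * (2 * cc m + 1) + cc m + 1 := by exact_mod_cast h2
  omega

/-- Nesting: if a closed middle cell of level `n + 1` meets `UU m` with `m < n`, then it is
contained in `UU m`. -/
theorem nested {m n : ℕ} (h : m < n) (k : ℤ) {q x : ℝ}
    (hq1 : ((k * (2 * cc n + 1) + cc n : ℤ) : ℝ) / BB (n + 1) ≤ q)
    (hq2 : q ≤ ((k * (2 * cc n + 1) + cc n + 1 : ℤ) : ℝ) / BB (n + 1))
    (hqU : q ∈ UU m)
    (hx1 : ((k * (2 * cc n + 1) + cc n : ℤ) : ℝ) / BB (n + 1) ≤ x)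
    (hx2 : x ≤ ((k * (2 * cc n + 1) + cc n + 1 : ℤ) : ℝ) / BB (n + 1)) : x ∈ UU m := by
  obtain ⟨l, h1, h2⟩ := hqU
  obtain ⟨c, hc⟩ := BB_dvd (show m + 1 ≤ n from h)
  have hn := BBR_pos n
  have hm := BBR_pos (m + 1)
  have hn1 := BBR_pos (n + 1)
  have hcn := cc_pos n
  have hcnR : (0 : ℝ) < cc n := by exact_mod_cast hcn
  have hc' : ((BB n : ℤ) : ℝ) = BB (m + 1) * c := by exact_mod_cast hc
  have hc0 : (0 : ℝ) < c := by
    by_contra h0
    push Not at h0
    nlinarith
  have hB : ((BB (n + 1) : ℤ) : ℝ) = BB n * (2 * cc n + 1) := by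
    simp [BB]
  -- the closed middle cell lies strictly inside the cell of level `n`
  have a1 : ((k : ℤ) : ℝ) / BB n < ((k * (2 * cc n + 1) + cc n : ℤ) : ℝ) / BB (n + 1) := by
    rw [hB, div_lt_div_iff₀ hn (by positivity)]
    push_cast
    nlinarith
  have a2 : ((k * (2 * cc n + 1) + cc n + 1 : ℤ) : ℝ) / BB (n + 1) < ((k + 1 : ℤ) : ℝ) / BB n := by
    rw [hB, div_lt_div_iff₀ (by positivity) hn]
    push_cast
    nlinarith
  set E : ℤ := l * (2 * cc m + 1) + cc m with hE
  have e1 : ((E : ℤ) : ℝ) / BB (m + 1) = ((E * c : ℤ) : ℝ) / BB n := by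
    rw [hc']; push_cast; field_simp
  have e2 : ((E + 1 : ℤ) : ℝ) / BB (m + 1) = (((E + 1) * c : ℤ) : ℝ) / BB n := by
    rw [hc']; push_cast; field_simp
  have b1 : ((E * c : ℤ) : ℝ) / BB n < ((k + 1 : ℤ) : ℝ) / BB n := by
    rw [← e1]; exact (h1.trans_le hq2).trans a2
  have b2 : ((k : ℤ) : ℝ) / BB n < (((E + 1) * c : ℤ) : ℝ) / BB n := by
    rw [← e2]; exact (a1.trans_le hq1).trans h2
  rw [div_lt_div_iff_of_pos_right hn] at b1 b2
  have b1' : E * c < k + 1 := by exact_mod_cast b1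
  have b2' : k < (E + 1) * c := by exact_mod_cast b2
  refine ⟨l, ?_, ?_⟩
  · rw [← hE, e1]
    refine lt_of_le_of_lt ?_ (a1.trans_le hx1)
    rw [div_le_div_iff_of_pos_right hn]
    exact_mod_cast (show E * c ≤ k by omega)
  · rw [← hE, e2]
    refine lt_of_lt_of_le (hx2.trans_lt a2) ?_
    rw [div_le_div_iff_of_pos_right hn]
    exact_mod_cast (show k + 1 ≤ (E + 1) * c by omega)

/-- The hole predicate: the open square with lower left corner `(u, v)` and side `a` is disjoint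
from `SS` and its boundary is contained in `SS`. -/
def IsHole (u v a : ℝ) : Prop :=
  0 < a ∧ (∀ x y, u < x → x < u + a → v < y → y < v + a → (x, y) ∉ SS) ∧
    (∀ x y, u ≤ x → x ≤ u + a → v ≤ y → y ≤ v + a →
      (x = u ∨ x = u + a ∨ y = v ∨ y = v + a) → (x, y) ∈ SS)

theorem exists_hole {x y : ℝ} (hx : x ∈ Icc (0 : ℝ) 1) (hy : y ∈ Icc (0 : ℝ) 1)
    (hxy : (x, y) ∉ SS) :
    ∃ u v a : ℝ, IsHole u v a ∧ u < x ∧ x < u + a ∧ v < y ∧ y < v + a := by
  classical
  have hex : ∃ n, x ∈ UU n ∧ y ∈ UU n := by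
    by_contra hcon
    push Not at hcon
    exact hxy ⟨hx, hy, fun n h => hcon n h.1 h.2⟩
  obtain ⟨n, hn, hmin⟩ : ∃ n, (x ∈ UU n ∧ y ∈ UU n) ∧ ∀ m < n, ¬ (x ∈ UU m ∧ y ∈ UU m) :=
    ⟨Nat.find hex, Nat.find_spec hex, fun m hm => Nat.find_min hex hm⟩
  obtain ⟨⟨k, hk1, hk2⟩, ⟨l, hl1, hl2⟩⟩ := hn
  have hB := BBR_pos (n + 1)
  set A : ℤ := k * (2 * cc n + 1) + cc n with hA
  set A' : ℤ := l * (2 * cc n + 1) + cc n with hA'
  have eA : ((A + 1 : ℤ) : ℝ) / BB (n + 1) = (A : ℝ) / BB (n + 1) + 1 / BB (n + 1) := by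
    push_cast; ring
  have eA' : ((A' + 1 : ℤ) : ℝ) / BB (n + 1) = (A' : ℝ) / BB (n + 1) + 1 / BB (n + 1) := by
    push_cast; ring
  -- bounds inside the unit square
  have bnd : ∀ (C : ℤ) (z : ℝ), z ∈ Icc (0 : ℝ) 1 → (C : ℝ) / BB (n + 1) < z →
      z < ((C + 1 : ℤ) : ℝ) / BB (n + 1) →
      0 ≤ (C : ℝ) / BB (n + 1) ∧ ((C + 1 : ℤ) : ℝ) / BB (n + 1) ≤ 1 := by
    intro C z hz h1 h2
    constructor
    · have : (0 : ℝ) < ((C + 1 : ℤ) : ℝ) / BB (n + 1) := hz.1.trans_lt h2
      have h3 : (0 : ℝ) < ((C + 1 : ℤ) : ℝ) := by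
        by_contra h0
        push Not at h0
        exact absurd this (not_lt.2 (div_nonpos_of_nonpos_of_nonneg h0 hB.le))
      have h4 : 0 < C + 1 := by exact_mod_cast h3
      have h5 : 0 ≤ C := by omega
      have h6 : (0 : ℝ) ≤ C := by exact_mod_cast h5
      positivity
    · have : (C : ℝ) / BB (n + 1) < 1 := h1.trans_le hz.2
      rw [div_lt_one hB] at this
      have h4 : C < BB (n + 1) := by exact_mod_cast this
      have h5 : C + 1 ≤ BB (n + 1) := h4
      rw [div_le_one hB]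
      exact_mod_cast h5
  obtain ⟨bk1, bk2⟩ := bnd A x hx hk1 hk2
  obtain ⟨bl1, bl2⟩ := bnd A' y hy hl1 hl2
  refine ⟨(A : ℝ) / BB (n + 1), (A' : ℝ) / BB (n + 1), 1 / BB (n + 1),
    ⟨by positivity, ?_, ?_⟩, hk1, by rw [← eA]; exact hk2, hl1, by rw [← eA']; exact hl2⟩
  · intro z w h1 h2 h3 h4 hS
    rw [← eA] at h2
    rw [← eA'] at h4
    exact hS.2.2 n ⟨⟨k, h1, h2⟩, ⟨l, h3, h4⟩⟩
  · intro z w h1 h2 h3 h4 hb
    rw [← eA] at h2 hb
    rw [← eA'] at h4 hb
    refine ⟨⟨bk1.trans h1, h2.trans bk2⟩, ⟨bl1.trans h3, h4.trans bl2⟩, ?_⟩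
    rintro m ⟨hz, hw⟩
    simp only at hz hw
    by_cases hmn : n ≤ m
    · rcases hb with hb | hb | hb | hb
      · rw [hb] at hz; exact mult_not_mem (by omega) _ hz
      · rw [hb] at hz; exact mult_not_mem (by omega) _ hz
      · rw [hb] at hw; exact mult_not_mem (by omega) _ hw
      · rw [hb] at hw; exact mult_not_mem (by omega) _ hw
    · push Not at hmn
      exact hmin m hmn ⟨nested hmn k h1 h2 hz hk1.le hk2.le, nested hmn l h3 h4 hw hl1.le hl2.le⟩

/-! ### The `l1` distance and paths -/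

/-- the `ℓ¹` distance in the plane -/
def l1 (p q : ℝ × ℝ) : ℝ := |p.1 - q.1| + |p.2 - q.2|

theorem l1_nonneg (p q : ℝ × ℝ) : 0 ≤ l1 p q := by unfold l1; positivity

theorem l1_self (p : ℝ × ℝ) : l1 p p = 0 := by simp [l1]

theorem l1_comm (p q : ℝ × ℝ) : l1 p q = l1 q p := by
  unfold l1; rw [abs_sub_comm p.1, abs_sub_comm p.2]

theorem l1_triangle (p q r : ℝ × ℝ) : l1 p r ≤ l1 p q + l1 q r := by
  unfold l1
  have h1 := abs_sub_le p.1 q.1 r.1
  have h2 := abs_sub_le p.2 q.2 r.2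
  linarith

theorem eq_of_l1_eq_zero {p q : ℝ × ℝ} (h : l1 p q = 0) : p = q := by
  unfold l1 at h
  have h1 : |p.1 - q.1| = 0 := le_antisymm (by linarith [abs_nonneg (p.2 - q.2)]) (abs_nonneg _)
  have h2 : |p.2 - q.2| = 0 := le_antisymm (by linarith [abs_nonneg (p.1 - q.1)]) (abs_nonneg _)
  exact Prod.ext (sub_eq_zero.1 (abs_eq_zero.1 h1)) (sub_eq_zero.1 (abs_eq_zero.1 h2))

/-- `Conn p q L`: there is a curve in `SS`, `1`-Lipschitz for the `ℓ¹` distance, which is at `p` at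
time `0` and at `q` at time `L ≥ 0`. -/
def Conn (p q : ℝ × ℝ) (L : ℝ) : Prop :=
  0 ≤ L ∧ ∃ γ : ℝ → ℝ × ℝ, (∀ t, γ t ∈ SS) ∧ (∀ s t, l1 (γ s) (γ t) ≤ |s - t|) ∧
    γ 0 = p ∧ γ L = q

theorem Conn.l1_le {p q : ℝ × ℝ} {L : ℝ} (h : Conn p q L) : l1 p q ≤ L := by
  obtain ⟨hL, γ, _, h2, h3, h4⟩ := h
  have := h2 0 L
  rw [h3, h4, zero_sub, abs_neg, abs_of_nonneg hL] at this
  exact this

theorem conn_of_lip {f : ℝ → ℝ × ℝ} {a b K : ℝ} (hab : a ≤ b) (hK : 0 < K)
    (hS : ∀ t, a ≤ t → t ≤ b → f t ∈ SS)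
    (hL : ∀ s t, a ≤ s → s ≤ t → t ≤ b → l1 (f s) (f t) ≤ K * (t - s)) :
    Conn (f a) (f b) (K * (b - a)) := by
  refine ⟨mul_nonneg hK.le (sub_nonneg.2 hab), fun t => f (max a (min b (a + t / K))), ?_, ?_, ?_,
    ?_⟩
  · intro t
    exact hS _ (le_max_left _ _) (max_le hab (min_le_left _ _))
  · have key : ∀ s t : ℝ, s ≤ t → l1 (f (max a (min b (a + s / K)))) (f (max a (min b (a + t / K))))
        ≤ |s - t| := by
      intro s t hst
      have hdiv : s / K ≤ t / K := div_le_div_of_nonneg_right hst hK.le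
      have h1 := hL (max a (min b (a + s / K))) (max a (min b (a + t / K))) (le_max_left _ _)
        (max_le_max le_rfl (min_le_min le_rfl (by linarith))) (max_le hab (min_le_left _ _))
      have h2 : max a (min b (a + t / K)) - max a (min b (a + s / K)) ≤ t / K - s / K := by
        have h3 : max a (min b (a + t / K)) ≤ max a (min b (a + s / K)) + (t / K - s / K) := by
          apply max_le
          · have := le_max_left a (min b (a + s / K))
            linarith
          · rcases le_total b (a + s / K) with h | h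
            · have : b ≤ max a (min b (a + s / K)) := by
                rw [min_eq_left h]; exact le_max_right _ _
              have := min_le_left b (a + t / K)
              linarith
            · have h5 : a + s / K ≤ max a (min b (a + s / K)) := by
                rw [min_eq_right h]; exact le_max_right _ _
              have := min_le_right b (a + t / K)
              linarith
        linarith
      have h4 : K * (t / K - s / K) = t - s := by field_simp
      have h5 : K * (max a (min b (a + t / K)) - max a (min b (a + s / K))) ≤ t - s := by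
        rw [← h4]; exact mul_le_mul_of_nonneg_left h2 hK.le
      rw [abs_sub_comm, abs_of_nonneg (sub_nonneg.2 hst)]
      exact h1.trans h5
    intro s t
    rcases le_total s t with h | h
    · exact key s t h
    · rw [l1_comm, abs_sub_comm]; exact key t s h
  · simp [hab]
  · have : a + K * (b - a) / K = b := by field_simp; ring
    show f (max a (min b (a + K * (b - a) / K))) = f b
    rw [this, min_self, max_eq_right hab]

theorem Conn.symm {p q : ℝ × ℝ} {L : ℝ} (h : Conn p q L) : Conn q p L := by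
  obtain ⟨hL, γ, h1, h2, h3, h4⟩ := h
  refine ⟨hL, fun t => γ (L - t), fun t => h1 _, fun s t => ?_, by simpa using h4, by simpa using h3⟩
  have := h2 (L - s) (L - t)
  rw [show L - s - (L - t) = -(s - t) by ring, abs_neg] at this
  exact this

theorem Conn.trans {p q r : ℝ × ℝ} {L L' : ℝ} (h : Conn p q L) (h' : Conn q r L') :
    Conn p r (L + L') := by
  obtain ⟨hL, γ, h1, h2, h3, h4⟩ := h
  obtain ⟨hL', γ', h1', h2', h3', h4'⟩ := h'
  refine ⟨add_nonneg hL hL', fun t => if t ≤ L then γ t else γ' (t - L), ?_, ?_, ?_, ?_⟩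
  · intro t
    simp only
    split_ifs
    · exact h1 _
    · exact h1' _
  · have key : ∀ s t : ℝ, s ≤ t → l1 (if s ≤ L then γ s else γ' (s - L))
        (if t ≤ L then γ t else γ' (t - L)) ≤ |s - t| := by
      intro s t hst
      by_cases ht : t ≤ L
      · rw [if_pos (hst.trans ht), if_pos ht]; exact h2 s t
      · rw [if_neg ht]
        push Not at ht
        by_cases hs : s ≤ L
        · rw [if_pos hs]
          have e1 := h2 s L
          have e2 := h2' 0 (t - L)
          rw [h3'] at e2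
          rw [h4] at e1
          have e3 := l1_triangle (γ s) q (γ' (t - L))
          rw [abs_sub_comm, abs_of_nonneg (sub_nonneg.2 hs)] at e1
          rw [zero_sub, abs_neg, abs_of_nonneg (sub_nonneg.2 ht.le)] at e2
          rw [abs_sub_comm, abs_of_nonneg (sub_nonneg.2 hst)]
          linarith
        · rw [if_neg hs]
          have := h2' (s - L) (t - L)
          rw [show s - L - (t - L) = s - t by ring] at this
          exact this
    intro s t
    rcases le_total s t with h | h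
    · exact key s t h
    · rw [l1_comm, abs_sub_comm]; exact key t s h
  · simp only [if_pos hL]; exact h3
  · simp only
    split_ifs with h5
    · have h6 : L' = 0 := le_antisymm (by linarith) hL'
      rw [h6, add_zero, h4, ← h3', ← h4', h6]
    · rw [add_sub_cancel_left]; exact h4'

theorem Conn.swap {p q : ℝ × ℝ} {L : ℝ} (h : Conn p q L) : Conn p.swap q.swap L := by
  obtain ⟨hL, γ, h1, h2, h3, h4⟩ := h
  refine ⟨hL, fun t => (γ t).swap, fun t => SS_swap (h1 t), fun s t => ?_, by simp [h3],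
    by simp [h4]⟩
  have := h2 s t
  unfold l1 at this ⊢
  simp only [Prod.fst_swap, Prod.snd_swap]
  linarith

theorem Conn.refl {p : ℝ × ℝ} (hp : p ∈ SS) : Conn p p 0 :=
  ⟨le_rfl, fun _ => p, fun _ => hp, fun s t => by rw [l1_self]; positivity, rfl, rfl⟩

theorem Conn.mono {p q : ℝ × ℝ} {L L' : ℝ} (h : Conn p q L) (hL : L ≤ L') : Conn p q L' := by
  obtain ⟨hL0, γ, h1, h2, h3, h4⟩ := h
  refine ⟨hL0.trans hL, fun t => γ (min t L), fun t => h1 _, fun s t => ?_, ?_, ?_⟩
  · refine (h2 _ _).trans ?_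
    exact abs_min_sub_min_le_max s L t L |>.trans (by simp)
  · simp only [min_eq_left hL0]; exact h3
  · simp only [min_eq_right hL]; exact h4

end Pool.Agent.H971R3
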