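import Pool.Agent.H971R3.Defs

/-!
# The counting inequality for grids mapped into spaces with the local four point inequality
-/

namespace Pool.Agent.H971R3

open Finset

/-- Splitting a square sum along the diagonals. -/
theorem sum_square_diag (F : ℕ → ℕ → ℝ) (N : ℕ) :
    ∑ k ∈ range N, ∑ l ∈ range N, F k l =
      (∑ j ∈ range N, ∑ i ∈ range (N - j), F i (i + j)) +
      ∑ j ∈ range N, ∑ i ∈ range (N - (j + 1)), F (i + (j + 1)) i := by
  have h1 : ∑ k ∈ range N, ∑ l ∈ Ico k N, F k l =
      ∑ j ∈ range N, ∑ i ∈ range (N - j), F i (i + j) := by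
    have : ∀ k ∈ range N, ∑ l ∈ Ico k N, F k l = ∑ j ∈ range (N - k), F k (k + j) := by
      intro k _
      rw [Finset.sum_Ico_eq_sum_range]
    rw [Finset.sum_congr rfl this]
    apply Finset.sum_comm'
    intro x y
    simp only [Finset.mem_range]
    omega
  have h2 : ∑ k ∈ range N, ∑ l ∈ range k, F k l =
      ∑ j ∈ range N, ∑ i ∈ range (N - (j + 1)), F (i + (j + 1)) i := by
    have e1 : ∑ k ∈ range N, ∑ l ∈ range k, F k l =
        ∑ l ∈ range N, ∑ k ∈ Ico (l + 1) N, F k l := by
      apply Finset.sum_comm'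
      intro x y
      simp only [Finset.mem_range, Finset.mem_Ico]
      omega
    rw [e1]
    have : ∀ l ∈ range N, ∑ k ∈ Ico (l + 1) N, F k l =
        ∑ j ∈ range (N - (l + 1)), F (l + 1 + j) l := by
      intro k _
      rw [Finset.sum_Ico_eq_sum_range]
    rw [Finset.sum_congr rfl this]
    have e2 : ∑ l ∈ range N, ∑ j ∈ range (N - (l + 1)), F (l + 1 + j) l =
        ∑ j ∈ range N, ∑ l ∈ range (N - (j + 1)), F (l + 1 + j) l := by
      apply Finset.sum_comm'
      intro x y
      simp only [Finset.mem_range]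
      omega
    rw [e2]
    refine Finset.sum_congr rfl fun j _ => Finset.sum_congr rfl fun i _ => ?_
    congr 1
    omega
  rw [← h1, ← h2, ← Finset.sum_add_distrib]
  refine Finset.sum_congr rfl fun k hk => ?_
  have hk' : k ≤ N := (Finset.mem_range.1 hk).le
  have := Finset.sum_range_add_sum_Ico (fun l => F k l) hk'
  linarith

theorem diag_lower {M : Type*} [MetricSpace M] (g : ℕ → ℕ → M) (α β : ℕ → ℝ) (ε : ℝ) (N : ℕ)
    (H : ∀ k l n, k + n ≤ N → l + n ≤ N →
      (∑ i ∈ range n, (α (k + i) + β (l + i))) - ε ≤ dist (g k l) (g (k + n) (l + n))) :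
    (∑ k ∈ range N, ∑ l ∈ range N, (α k + β l)) - 2 * N * ε ≤
      ∑ k ∈ range N, ∑ l ∈ range N, dist (g k l) (g (k + 1) (l + 1)) := by
  rw [sum_square_diag, sum_square_diag]
  have A : ∀ j ∈ range N, (∑ i ∈ range (N - j), (α i + β (i + j))) - ε ≤
      ∑ i ∈ range (N - j), dist (g i (i + j)) (g (i + 1) (i + j + 1)) := by
    intro j hj
    have hj' : j < N := Finset.mem_range.1 hj
    have h1 := H 0 j (N - j) (by omega) (by omega)
    have h2 := dist_le_range_sum_dist (fun i => g i (i + j)) (N - j)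
    have h3 : (∑ i ∈ range (N - j), (α (0 + i) + β (j + i))) =
        ∑ i ∈ range (N - j), (α i + β (i + j)) := by
      refine Finset.sum_congr rfl fun i _ => ?_
      rw [zero_add, add_comm j i]
    rw [h3] at h1
    have h4 : (∑ i ∈ range (N - j), dist (g i (i + j)) (g (i + 1) (i + 1 + j))) =
        ∑ i ∈ range (N - j), dist (g i (i + j)) (g (i + 1) (i + j + 1)) := by
      refine Finset.sum_congr rfl fun i _ => ?_
      rw [add_right_comm i 1 j]
    simp only [zero_add] at h1 h2
    rw [h4] at h2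
    have h5 : j + (N - j) = N - j + j := by omega
    rw [h5] at h1
    linarith
  have B : ∀ j ∈ range N, (∑ i ∈ range (N - (j + 1)), (α (i + (j + 1)) + β i)) - ε ≤
      ∑ i ∈ range (N - (j + 1)), dist (g (i + (j + 1)) i) (g (i + (j + 1) + 1) (i + 1)) := by
    intro j hj
    have hj' : j < N := Finset.mem_range.1 hj
    have h1 := H (j + 1) 0 (N - (j + 1)) (by omega) (by omega)
    have h2 := dist_le_range_sum_dist (fun i => g (i + (j + 1)) i) (N - (j + 1))
    have h3 : (∑ i ∈ range (N - (j + 1)), (α (j + 1 + i) + β (0 + i))) =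
        ∑ i ∈ range (N - (j + 1)), (α (i + (j + 1)) + β i) := by
      refine Finset.sum_congr rfl fun i _ => ?_
      rw [zero_add, add_comm (j + 1) i]
    rw [h3] at h1
    have h4 : (∑ i ∈ range (N - (j + 1)), dist (g (i + (j + 1)) i) (g (i + 1 + (j + 1)) (i + 1))) =
        ∑ i ∈ range (N - (j + 1)), dist (g (i + (j + 1)) i) (g (i + (j + 1) + 1) (i + 1)) := by
      refine Finset.sum_congr rfl fun i _ => ?_
      rw [add_right_comm i 1 (j + 1)]
    simp only [zero_add] at h1 h2
    rw [h4] at h2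
    have h5 : j + 1 + (N - (j + 1)) = N - (j + 1) + (j + 1) := by omega
    rw [h5] at h1
    linarith
  have A' := Finset.sum_le_sum A
  have B' := Finset.sum_le_sum B
  rw [Finset.sum_sub_distrib, Finset.sum_const, Finset.card_range, nsmul_eq_mul] at A' B'
  linarith

/-- Cell inequality. -/
theorem cell_upper {M : Type*} [MetricSpace M] {η₁ : ℝ} (hη₁ : 0 < η₁)
    (h4 : FourPointAt M (2 * η₁)) {η : ℝ} (p q r s : M) {α β : ℝ} (hα : 0 ≤ α) (hβ : 0 ≤ β)
    (hpq : dist p q ≤ α) (hrs : dist r s ≤ α) (hps : dist p s ≤ β) (hqr : dist q r ≤ β) :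
    dist p r + dist q s ≤
      2 * (η + max (α - η) 0 + max (β - η) 0) + 2 * (α * β) / η₁ := by
  have hpr : dist p r ≤ α + β := (dist_triangle p q r).trans (by linarith)
  have hqs : dist q s ≤ α + β := by
    have := dist_triangle q p s
    rw [dist_comm q p] at this
    linarith
  have hαβ : 0 ≤ 2 * (α * β) / η₁ := by positivity
  have m1 : α - η ≤ max (α - η) 0 := le_max_left _ _
  have m2 : 0 ≤ max (α - η) 0 := le_max_right _ _
  have m3 : β - η ≤ max (β - η) 0 := le_max_left _ _
  have m4 : 0 ≤ max (β - η) 0 := le_max_right _ _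
  by_cases h1 : α ≤ η₁
  · by_cases h2 : β ≤ η₁
    · have h := h4 p q r s (by linarith) (by linarith) (by linarith)
      have h' : max (dist p q + dist r s) (dist p s + dist q r) ≤
          2 * (η + max (α - η) 0 + max (β - η) 0) := by
        apply max_le <;> linarith
      linarith
    · push Not at h2
      have h3 : α ≤ α * β / η₁ := by
        rw [le_div_iff₀ hη₁]
        nlinarith
      have h5 : 2 * (α * β) / η₁ = 2 * (α * β / η₁) := by ring
      rw [h5]
      linarith
  · push Not at h1
    have h3 : β ≤ α * β / η₁ := by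
      rw [le_div_iff₀ hη₁]
      nlinarith
    have h5 : 2 * (α * β) / η₁ = 2 * (α * β / η₁) := by ring
    rw [h5]
    linarith

theorem count_main {M : Type*} [MetricSpace M] {η₁ : ℝ} (hη₁ : 0 < η₁)
    (h4 : FourPointAt M (2 * η₁)) {N : ℕ} (hN : 0 < N) (c : ℕ → ℝ) (hc : Monotone c)
    (hc1 : c N - c 0 ≤ 1) {ε δ : ℝ} (hε : 0 ≤ ε)
    (hδ : ∑ k ∈ range N, max (c (k + 1) - c k - 1 / N) 0 ≤ δ)
    (P : ℕ → ℕ → M)
    (hub : ∀ k l k' l', k ≤ N → l ≤ N → k' ≤ N → l' ≤ N →
      dist (P k l) (P k' l') ≤ |c k - c k'| + |c l - c l'|)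
    (hlb : ∀ k l k' l', k ≤ N → l ≤ N → k' ≤ N → l' ≤ N →
      |c k - c k'| + |c l - c l'| - ε ≤ dist (P k l) (P k' l')) :
    4 * (c N - c 0) - 4 * ε ≤ 2 + 4 * δ + 2 / (η₁ * N) := by
  have hN' : (0 : ℝ) < N := by exact_mod_cast hN
  set α : ℕ → ℝ := fun k => c (k + 1) - c k with hα
  have hα0 : ∀ k, 0 ≤ α k := fun k => sub_nonneg.2 (hc (Nat.le_succ k))
  have hsumα : ∑ k ∈ range N, α k = c N - c 0 := Finset.sum_range_sub c N
  set h := c N - c 0 with hh
  have hh0 : 0 ≤ h := sub_nonneg.2 (hc (Nat.zero_le N))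
  -- lower bound for the main diagonals
  have L1 := diag_lower P α α ε N (by
    intro k l n hk hl
    have e := hlb k l (k + n) (l + n) (by omega) (by omega) hk hl
    have e1 : ∑ i ∈ range n, (α (k + i) + α (l + i)) = |c k - c (k + n)| + |c l - c (l + n)| := by
      rw [Finset.sum_add_distrib]
      have e2 : ∀ m : ℕ, ∑ i ∈ range n, α (m + i) = |c m - c (m + n)| := by
        intro m
        have := Finset.sum_range_sub (fun i => c (m + i)) n
        simp only [add_zero] at this
        rw [abs_sub_comm, abs_of_nonneg (sub_nonneg.2 (hc (Nat.le_add_right m n))), ← this]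
        refine Finset.sum_congr rfl fun i _ => ?_
        simp only [hα, add_assoc]
      rw [e2, e2]
    rw [e1]
    exact e)
  -- lower bound for the antidiagonals
  have L2 := diag_lower (fun k l => P k (N - l)) α (fun l => α (N - 1 - l)) ε N (by
    intro k l n hk hl
    have e := hlb k (N - l) (k + n) (N - (l + n)) (by omega) (by omega) hk (by omega)
    have e1 : ∑ i ∈ range n, (α (k + i) + α (N - 1 - (l + i))) =
        |c k - c (k + n)| + |c (N - l) - c (N - (l + n))| := by
      rw [Finset.sum_add_distrib]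
      have e2 : ∑ i ∈ range n, α (k + i) = |c k - c (k + n)| := by
        have := Finset.sum_range_sub (fun i => c (k + i)) n
        simp only [add_zero] at this
        rw [abs_sub_comm, abs_of_nonneg (sub_nonneg.2 (hc (Nat.le_add_right k n))), ← this]
        refine Finset.sum_congr rfl fun i _ => ?_
        simp only [hα, add_assoc]
      have e3 : ∑ i ∈ range n, α (N - 1 - (l + i)) = |c (N - l) - c (N - (l + n))| := by
        have := Finset.sum_range_sub' (fun i => c (N - (l + i))) n
        simp only [add_zero] at this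
        rw [abs_of_nonneg (sub_nonneg.2 (hc (by omega))), ← this]
        refine Finset.sum_congr rfl fun i hi => ?_
        have hi' := Finset.mem_range.1 hi
        have g1 : N - 1 - (l + i) + 1 = N - (l + i) := by omega
        have g2 : N - 1 - (l + i) = N - (l + (i + 1)) := by omega
        simp only [hα]
        rw [g1, g2]
      rw [e2, e3]
    rw [e1]
    exact e)
  have L2' : ∑ k ∈ range N, ∑ l ∈ range N, dist (P k (N - l)) (P (k + 1) (N - (l + 1))) =
      ∑ k ∈ range N, ∑ l ∈ range N, dist (P (k + 1) l) (P k (l + 1)) := by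
    refine Finset.sum_congr rfl fun k _ => ?_
    rw [← Finset.sum_range_reflect]
    refine Finset.sum_congr rfl fun l hl => ?_
    have hl' := Finset.mem_range.1 hl
    rw [dist_comm]
    congr 2 <;> omega
  rw [L2'] at L2
  have S1 : ∑ k ∈ range N, ∑ l ∈ range N, (α k + α l) = 2 * N * h := by
    simp only [Finset.sum_add_distrib, Finset.sum_const, Finset.card_range, nsmul_eq_mul]
    rw [← Finset.mul_sum, hsumα]
    ring
  have S2 : ∑ k ∈ range N, ∑ l ∈ range N, (α k + α (N - 1 - l)) = 2 * N * h := by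
    rw [← S1]
    refine Finset.sum_congr rfl fun k _ => ?_
    rw [Finset.sum_add_distrib, Finset.sum_add_distrib, Finset.sum_range_reflect (fun l => α l) N]
  rw [S1] at L1
  rw [S2] at L2
  -- upper bound
  have U : ∀ k ∈ range N, ∀ l ∈ range N,
      dist (P k l) (P (k + 1) (l + 1)) + dist (P (k + 1) l) (P k (l + 1)) ≤
      2 * (1 / N + max (α k - 1 / N) 0 + max (α l - 1 / N) 0) + 2 * (α k * α l) / η₁ := by
    intro k hk l hl
    have hk' := Finset.mem_range.1 hk
    have hl' := Finset.mem_range.1 hl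
    have a1 : ∀ m, |c m - c (m + 1)| = α m := by
      intro m
      rw [abs_sub_comm, abs_of_nonneg (hα0 m)]
    apply cell_upper hη₁ h4 (P k l) (P (k + 1) l) (P (k + 1) (l + 1)) (P k (l + 1)) (hα0 k) (hα0 l)
    · have := hub k l (k + 1) l (by omega) (by omega) (by omega) (by omega)
      rw [a1, sub_self, abs_zero, add_zero] at this
      exact this
    · have := hub (k + 1) (l + 1) k (l + 1) (by omega) (by omega) (by omega) (by omega)
      rw [sub_self, abs_zero, add_zero, abs_sub_comm, a1] at this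
      exact this
    · have := hub k l k (l + 1) (by omega) (by omega) (by omega) (by omega)
      rw [a1, sub_self, abs_zero, zero_add] at this
      exact this
    · have := hub (k + 1) l (k + 1) (l + 1) (by omega) (by omega) (by omega) (by omega)
      rw [a1, sub_self, abs_zero, zero_add] at this
      exact this
  have U' := Finset.sum_le_sum fun k hk => Finset.sum_le_sum (U k hk)
  have S3 : ∑ k ∈ range N, ∑ l ∈ range N,
      (2 * (1 / (N : ℝ) + max (α k - 1 / N) 0 + max (α l - 1 / N) 0) + 2 * (α k * α l) / η₁) =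
      2 * N + 4 * N * (∑ k ∈ range N, max (α k - 1 / N) 0) + 2 * (h * h) / η₁ := by
    have e1 : ∀ k ∈ range N, ∑ l ∈ range N,
        (2 * (1 / (N : ℝ) + max (α k - 1 / N) 0 + max (α l - 1 / N) 0) + 2 * (α k * α l) / η₁) =
        2 + 2 * N * max (α k - 1 / N) 0 + 2 * (∑ l ∈ range N, max (α l - 1 / N) 0) +
          2 * (α k * h) / η₁ := by
      intro k _
      have e2 : ∀ l ∈ range N,
        (2 * (1 / (N : ℝ) + max (α k - 1 / N) 0 + max (α l - 1 / N) 0) + 2 * (α k * α l) / η₁) =
        (2 / N + 2 * max (α k - 1 / N) 0) + 2 * max (α l - 1 / N) 0 +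
          (2 * α k / η₁) * α l := by
        intro l _
        ring
      rw [Finset.sum_congr rfl e2, Finset.sum_add_distrib, Finset.sum_add_distrib,
        ← Finset.mul_sum, ← Finset.mul_sum, hsumα, Finset.sum_const, Finset.card_range,
        nsmul_eq_mul]
      field_simp
    rw [Finset.sum_congr rfl e1]
    have e3 : ∀ k ∈ range N, 2 + 2 * N * max (α k - 1 / (N : ℝ)) 0 +
        2 * (∑ l ∈ range N, max (α l - 1 / (N : ℝ)) 0) + 2 * (α k * h) / η₁ =
        (2 + 2 * (∑ l ∈ range N, max (α l - 1 / (N : ℝ)) 0)) +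
        2 * N * max (α k - 1 / (N : ℝ)) 0 + (2 * h / η₁) * α k := by
      intro k _
      ring
    rw [Finset.sum_congr rfl e3, Finset.sum_add_distrib, Finset.sum_add_distrib,
      ← Finset.mul_sum, ← Finset.mul_sum, hsumα, Finset.sum_const, Finset.card_range,
      nsmul_eq_mul]
    ring
  rw [S3] at U'
  simp only [Finset.sum_add_distrib] at U' L1 L2
  have hhh : 2 * (h * h) / η₁ ≤ 2 / η₁ := by
    apply div_le_div_of_nonneg_right _ hη₁.le
    nlinarith
  have key : 4 * N * h - 4 * N * ε ≤ 2 * N + 4 * N * δ + 2 / η₁ := by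
    have : 4 * N * (∑ k ∈ range N, max (α k - 1 / (N : ℝ)) 0) ≤ 4 * N * δ :=
      mul_le_mul_of_nonneg_left hδ (by positivity)
    linarith
  have e5 : 2 / (η₁ * N) = (2 / η₁) / N := by
    field_simp
  rw [e5]
  have : (4 * N * h - 4 * N * ε) / N ≤ (2 * N + 4 * N * δ + 2 / η₁) / N :=
    div_le_div_of_nonneg_right key hN'.le
  have e6 : (4 * N * h - 4 * N * ε) / N = 4 * h - 4 * ε := by field_simp
  have e7 : (2 * N + 4 * N * δ + 2 / η₁) / N = 2 + 4 * δ + (2 / η₁) / N := by field_simp
  rw [e6, e7] at this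
  exact this

end Pool.Agent.H971R3
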