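import Mathlib

/-!
# Length spaces, covering dimension, Minkowski polyhedra, pro-Minkowski spaces
-/

namespace Pool.Agent.H971R3

open Set Filter Topology

/-- The length of a curve `γ` joining `x` and `y` in a metric space: its total variation. -/
noncomputable def curveLength {X : Type*} [MetricSpace X] {x y : X} (γ : Path x y) : ENNReal :=
  eVariationOn (fun t => γ t) Set.univ

/-- A metric space is a *length space* if the distance between any two points is the infimum
of the lengths of the curves joining them. -/
def IsLengthSpace (X : Type*) [MetricSpace X] : Prop :=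
  ∀ x y : X, edist x y = ⨅ γ : Path x y, curveLength γ

/-- The induced length (inner) distance between two points `x`, `y` of a subset `A` of a metric
space: the infimum of the lengths of the curves joining `x` and `y` inside `A`. -/
noncomputable def innerDist {X : Type*} [MetricSpace X] (A : Set X) (x y : X) : ENNReal :=
  ⨅ γ : {γ : Path x y // ∀ t, γ t ∈ A}, curveLength γ.1

/-- `CoveringDimLE X n`: the Lebesgue covering dimension of `X` is at most `n`, i.e. every
finite open cover has a finite open refinement such that each point lies in at most `n + 1` of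
its members. -/
def CoveringDimLE (X : Type*) [TopologicalSpace X] (n : ℕ) : Prop :=
  ∀ 𝒰 : Set (Set X), 𝒰.Finite → (∀ U ∈ 𝒰, IsOpen U) → ⋃₀ 𝒰 = univ →
    ∃ 𝒱 : Set (Set X), 𝒱.Finite ∧ (∀ V ∈ 𝒱, IsOpen V) ∧ ⋃₀ 𝒱 = univ ∧
      (∀ V ∈ 𝒱, ∃ U ∈ 𝒰, V ⊆ U) ∧ ∀ x : X, {V | V ∈ 𝒱 ∧ x ∈ V}.encard ≤ n + 1

/-- The Lebesgue covering dimension of `X` is exactly `d`. -/
def HasCoveringDim (X : Type*) [TopologicalSpace X] (d : ℕ) : Prop :=
  CoveringDimLE X d ∧ ∀ k < d, ¬ CoveringDimLE X k

/-- `M` is a *Minkowski `d`-polyhedron*: a length space with a finite triangulation `h` (a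
homeomorphism from the underlying space of a finite simplicial complex `K`) into simplices of
dimension at most `d`, such that each simplex of `M`, with its induced length metric, is isometric
(by a map `i` taking vertices to vertices) to a simplex, the convex hull of an affinely independent
family, in some Minkowski space, i.e. in some finite-dimensional real normed space `F`. -/
def IsMinkowskiPolyhedron (d : ℕ) (M : Type*) [MetricSpace M] : Prop :=
  IsLengthSpace M ∧
  ∃ (N : ℕ) (K : Geometry.SimplicialComplex ℝ (Fin N → ℝ)) (h : K.space ≃ₜ M),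
    K.faces.Finite ∧ (∀ s ∈ K.faces, s.card ≤ d + 1) ∧
    ∀ s ∈ K.faces, ∃ (F : Type) (_ : NormedAddCommGroup F) (_ : NormedSpace ℝ F)
      (i : (Fin N → ℝ) → F), FiniteDimensional ℝ F ∧
      AffineIndependent ℝ (fun v : s => i v) ∧
      i '' (convexHull ℝ (s : Set (Fin N → ℝ))) = convexHull ℝ (i '' (s : Set (Fin N → ℝ))) ∧
      ∀ x y : K.space, x.1 ∈ convexHull ℝ (s : Set (Fin N → ℝ)) →
        y.1 ∈ convexHull ℝ (s : Set (Fin N → ℝ)) →
        innerDist (h '' {z | z.1 ∈ convexHull ℝ (s : Set (Fin N → ℝ))}) (h x) (h y) =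
          edist (i x.1) (i y.1)

/-- `X` is a *pro-Minkowski space of rank at most `d`*: it is isometric to the inverse limit of an
inverse sequence `M 0 ← M 1 ← M 2 ← ⋯` of Minkowski `d`-polyhedra with `1`-Lipschitz bonding maps
`f n : M (n + 1) → M n`. The maps `π n` are the projections: `x ↦ (π n x)` is a surjection onto
the set of threads and `dist x x' = lim dist (π n x) (π n x')` (so it is also injective). -/
def IsProMinkowski (d : ℕ) (X : Type*) [MetricSpace X] : Prop :=
  CompactSpace X ∧ ∃ (M : ℕ → Type) (_ : ∀ n, MetricSpace (M n)) (f : ∀ n, M (n + 1) → M n),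
    (∀ n, IsMinkowskiPolyhedron d (M n)) ∧ (∀ n, LipschitzWith 1 (f n)) ∧
    ∃ π : ∀ n, X → M n, (∀ n x, f n (π (n + 1) x) = π n x) ∧
      (∀ y : ∀ n, M n, (∀ n, f n (y (n + 1)) = y n) → ∃ x, ∀ n, π n x = y n) ∧
      ∀ x x' : X, Tendsto (fun n => dist (π n x) (π n x')) atTop (𝓝 (dist x x'))

/-- The local four point inequality at scale `η`: any four points within distance `η` of the first
one satisfy the four point inequality of metric trees. -/
def FourPointAt (M : Type*) [MetricSpace M] (η : ℝ) : Prop :=
  ∀ p q r s : M, dist p q ≤ η → dist p r ≤ η → dist p s ≤ η →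
    dist p r + dist q s ≤ max (dist p q + dist r s) (dist p s + dist q r)

end Pool.Agent.H971R3
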