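import Pool.Agent.H971R3.CarpetSet

/-!
# Detours around the holes of the carpet
-/

namespace Pool.Agent.H971R3

open Set

/-- The detour around the top of a square hole. -/
noncomputable def top (u v a y t : ℝ) : ℝ × ℝ :=
  (max u (min (u + a) (3 * t - 2 * u - a)), min (v + a) (y + 3 * min (t - u) (u + a - t)))

theorem top_left {u v a y : ℝ} (ha : 0 < a) (hy : y ≤ v + a) : top u v a y u = (u, y) := by
  unfold top
  have h1 : min (u + a) (3 * u - 2 * u - a) = u - a := by
    rw [min_eq_right] <;> linarith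
  have h2 : min (u - u) (u + a - u) = 0 := by
    rw [min_eq_left] <;> linarith
  rw [h1, h2, max_eq_left (by linarith), mul_zero, add_zero, min_eq_right hy]

theorem top_right {u v a y : ℝ} (ha : 0 < a) (hy : y ≤ v + a) :
    top u v a y (u + a) = (u + a, y) := by
  unfold top
  have h1 : min (u + a) (3 * (u + a) - 2 * u - a) = u + a := by
    rw [min_eq_left]; linarith
  have h2 : min (u + a - u) (u + a - (u + a)) = 0 := by
    rw [min_eq_right] <;> linarith
  rw [h1, h2, max_eq_right (by linarith), mul_zero, add_zero, min_eq_right hy]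

theorem top_lip {u v a y s t : ℝ} (hst : s ≤ t) :
    l1 (top u v a y s) (top u v a y t) ≤ 6 * (t - s) := by
  have key : ∀ x y z w : ℝ, |min x y - min z w| ≤ max |x - z| |y - w| :=
    fun x y z w => abs_min_sub_min_le_max x y z w
  have key2 : ∀ x y z w : ℝ, |max x y - max z w| ≤ max |x - z| |y - w| :=
    fun x y z w => abs_max_sub_max_le_max x y z w
  have hts : |s - t| = t - s := by rw [abs_sub_comm, abs_of_nonneg (sub_nonneg.2 hst)]
  have h0 : 0 ≤ t - s := sub_nonneg.2 hst
  have h1 : |(top u v a y s).1 - (top u v a y t).1| ≤ 3 * (t - s) := by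
    unfold top
    simp only
    refine (key2 _ _ _ _).trans (max_le (by simpa using h0) ?_)
    refine (key _ _ _ _).trans (max_le (by simpa using h0) ?_)
    have : 3 * s - 2 * u - a - (3 * t - 2 * u - a) = 3 * (s - t) := by ring
    rw [this, abs_mul, hts, abs_of_pos (by norm_num : (0 : ℝ) < 3)]
  have h2 : |(top u v a y s).2 - (top u v a y t).2| ≤ 3 * (t - s) := by
    unfold top
    simp only
    refine (key _ _ _ _).trans (max_le (by simpa using h0) ?_)
    have : y + 3 * min (s - u) (u + a - s) - (y + 3 * min (t - u) (u + a - t)) =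
      3 * (min (s - u) (u + a - s) - min (t - u) (u + a - t)) := by ring
    rw [this, abs_mul, abs_of_pos (by norm_num : (0 : ℝ) < 3)]
    apply mul_le_mul_of_nonneg_left _ (by norm_num)
    refine (key _ _ _ _).trans (max_le ?_ ?_)
    · rw [show s - u - (t - u) = s - t by ring, hts]
    · rw [show u + a - s - (u + a - t) = t - s by ring, abs_of_nonneg h0]
  unfold l1
  linarith

theorem top_mem {u v a y t : ℝ} (h : IsHole u v a) (hy1 : v < y) (hy2 : y < v + a)
    (ht1 : u ≤ t) (ht2 : t ≤ u + a) : top u v a y t ∈ SS := by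
  have ha := h.1
  unfold top
  have hm : 0 ≤ min (t - u) (u + a - t) := le_min (by linarith) (by linarith)
  apply h.2.2
  · exact le_max_left _ _
  · exact max_le (by linarith) (min_le_left _ _)
  · exact le_min (by linarith) (by linarith)
  · exact min_le_left _ _
  · by_cases h1 : t < u + a / 3
    · left
      rw [max_eq_left]
      exact (min_le_right _ _).trans (by linarith)
    · by_cases h2 : u + 2 * a / 3 < t
      · right; left
        have : min (u + a) (3 * t - 2 * u - a) = u + a := by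
          rw [min_eq_left]; linarith
        rw [this, max_eq_right (by linarith)]
      · right; right; right
        rw [min_eq_left]
        have : a / 3 ≤ min (t - u) (u + a - t) := le_min (by linarith) (by linarith)
        linarith

/-- Two holes whose open squares meet along a horizontal line coincide. -/
theorem hole_unique {u v a u' v' a' x y : ℝ} (h : IsHole u v a) (h' : IsHole u' v' a')
    (hx1 : u < x) (hx2 : x < u + a) (hy1 : v < y) (hy2 : y < v + a)
    (hx1' : u' < x) (hx2' : x < u' + a') (hy1' : v' < y) (hy2' : y < v' + a') :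
    u = u' ∧ v = v' ∧ a = a' := by
  have b1 : ∀ {u v a : ℝ}, IsHole u v a → v < y → y < v + a →
      (u, y) ∈ SS ∧ (u + a, y) ∈ SS := by
    intro u v a h h1 h2
    have := h.1
    exact ⟨h.2.2 _ _ le_rfl (by linarith) h1.le h2.le (Or.inl rfl),
      h.2.2 _ _ (by linarith) le_rfl h1.le h2.le (Or.inr (Or.inl rfl))⟩
  have b2 : ∀ {u v a : ℝ}, IsHole u v a → u < x → x < u + a →
      (x, v) ∈ SS ∧ (x, v + a) ∈ SS := by
    intro u v a h h1 h2
    have := h.1
    exact ⟨h.2.2 _ _ h1.le h2.le le_rfl (by linarith) (Or.inr (Or.inr (Or.inl rfl))),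
      h.2.2 _ _ h1.le h2.le (by linarith) le_rfl (Or.inr (Or.inr (Or.inr rfl)))⟩
  obtain ⟨c1, c2⟩ := b1 h hy1 hy2
  obtain ⟨c1', c2'⟩ := b1 h' hy1' hy2'
  obtain ⟨d1, d2⟩ := b2 h hx1 hx2
  obtain ⟨d1', d2'⟩ := b2 h' hx1' hx2'
  have e1 : u = u' := by
    rcases lt_trichotomy u u' with hlt | heq | hgt
    · exact absurd c1' (h.2.1 _ _ hlt (by linarith) hy1 hy2)
    · exact heq
    · exact absurd c1 (h'.2.1 _ _ hgt (by linarith) hy1' hy2')
  have e2 : u + a = u' + a' := by
    rcases lt_trichotomy (u + a) (u' + a') with hlt | heq | hgt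
    · exact absurd c2 (h'.2.1 _ _ (by linarith) hlt hy1' hy2')
    · exact heq
    · exact absurd c2' (h.2.1 _ _ (by linarith) hgt hy1 hy2)
  have e3 : v = v' := by
    rcases lt_trichotomy v v' with hlt | heq | hgt
    · exact absurd d1' (h.2.1 _ _ hx1 hx2 hlt (by linarith))
    · exact heq
    · exact absurd d1 (h'.2.1 _ _ hx1' hx2' hgt (by linarith))
  exact ⟨e1, e3, by linarith⟩

open Classical in
/-- The detour path at height `y`. -/
noncomputable def detour (y t : ℝ) : ℝ × ℝ :=
  if h : ∃ w : ℝ × ℝ × ℝ, IsHole w.1 w.2.1 w.2.2 ∧ w.1 < t ∧ t < w.1 + w.2.2 ∧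
    w.2.1 < y ∧ y < w.2.1 + w.2.2 then
    top h.choose.1 h.choose.2.1 h.choose.2.2 y t
  else (t, y)

theorem detour_of_hole {u v a y t : ℝ} (h : IsHole u v a) (h1 : u < t) (h2 : t < u + a)
    (h3 : v < y) (h4 : y < v + a) : detour y t = top u v a y t := by
  have hex : ∃ w : ℝ × ℝ × ℝ, IsHole w.1 w.2.1 w.2.2 ∧ w.1 < t ∧ t < w.1 + w.2.2 ∧
    w.2.1 < y ∧ y < w.2.1 + w.2.2 := ⟨(u, v, a), h, h1, h2, h3, h4⟩
  unfold detour
  rw [dif_pos hex]
  obtain ⟨c1, c2, c3, c4, c5⟩ := hex.choose_spec
  obtain ⟨e1, e2, e3⟩ := hole_unique c1 h c2 c3 c4 c5 h1 h2 h3 h4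
  rw [e1, e2, e3]

theorem detour_of_mem {y t : ℝ} (h : (t, y) ∈ SS) : detour y t = (t, y) := by
  unfold detour
  rw [dif_neg]
  rintro ⟨w, h0, h1, h2, h3, h4⟩
  exact h0.2.1 _ _ h1 h2 h3 h4 h

theorem detour_conn {x₀ x₁ y : ℝ} (hx : x₀ ≤ x₁) (h0 : (x₀, y) ∈ SS) (h1 : (x₁, y) ∈ SS) :
    Conn (x₀, y) (x₁, y) (6 * (x₁ - x₀)) := by
  have hI : ∀ t, x₀ ≤ t → t ≤ x₁ → t ∈ Icc (0 : ℝ) 1 := fun t ht1 ht2 =>
    ⟨h0.1.1.trans ht1, ht2.trans h1.1.2⟩
  have hy : y ∈ Icc (0 : ℝ) 1 := h0.2.1
  have hmem : ∀ t, x₀ ≤ t → t ≤ x₁ → detour y t ∈ SS := by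
    intro t ht1 ht2
    by_cases hS : (t, y) ∈ SS
    · rw [detour_of_mem hS]; exact hS
    · obtain ⟨u, v, a, hh, c1, c2, c3, c4⟩ := exists_hole (hI t ht1 ht2) hy hS
      rw [detour_of_hole hh c1 c2 c3 c4]
      exact top_mem hh c3 c4 c1.le c2.le
  -- a point `t` on the line is either in SS or in a hole
  have hlip : ∀ s t, x₀ ≤ s → s ≤ t → t ≤ x₁ → l1 (detour y s) (detour y t) ≤ 6 * (t - s) := by
    -- right exit
    have R : ∀ s u v a, IsHole u v a → u < s → s < u + a → v < y → y < v + a → ∀ t, u + a ≤ t →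
        l1 (detour y s) (t, y) ≤ 6 * (t - s) := by
      intro s u v a hh c1 c2 c3 c4 t ht
      rw [detour_of_hole hh c1 c2 c3 c4]
      have e1 := top_lip (u := u) (v := v) (a := a) (y := y) c2.le
      rw [top_right hh.1 c4.le] at e1
      have e2 := l1_triangle (top u v a y s) (u + a, y) (t, y)
      have e3 : l1 (u + a, y) (t, y) = t - (u + a) := by
        unfold l1
        simp only [sub_self, abs_zero, add_zero]
        rw [abs_sub_comm, abs_of_nonneg (sub_nonneg.2 ht)]
      rw [e3] at e2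
      linarith
    have L : ∀ s u v a, IsHole u v a → u < s → s < u + a → v < y → y < v + a → ∀ t, t ≤ u →
        l1 (t, y) (detour y s) ≤ 6 * (s - t) := by
      intro s u v a hh c1 c2 c3 c4 t ht
      rw [detour_of_hole hh c1 c2 c3 c4]
      have e1 := top_lip (u := u) (v := v) (a := a) (y := y) c1.le
      rw [top_left hh.1 c4.le] at e1
      have e2 := l1_triangle (t, y) (u, y) (top u v a y s)
      have e3 : l1 (t, y) (u, y) = u - t := by
        unfold l1
        simp only [sub_self, abs_zero, add_zero]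
        rw [abs_sub_comm, abs_of_nonneg (sub_nonneg.2 ht)]
      rw [e3] at e2
      linarith
    intro s t hs hst ht
    by_cases hSs : (s, y) ∈ SS
    · by_cases hSt : (t, y) ∈ SS
      · rw [detour_of_mem hSs, detour_of_mem hSt]
        unfold l1
        simp only [sub_self, abs_zero, add_zero]
        rw [abs_sub_comm, abs_of_nonneg (sub_nonneg.2 hst)]
        linarith
      · obtain ⟨u, v, a, hh, c1, c2, c3, c4⟩ := exists_hole (hI t (hs.trans hst) ht) hy hSt
        rw [detour_of_mem hSs]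
        apply L t u v a hh c1 c2 c3 c4 s
        by_contra hcon
        push Not at hcon
        exact hh.2.1 s y hcon (by linarith) c3 c4 hSs
    · obtain ⟨u, v, a, hh, c1, c2, c3, c4⟩ := exists_hole (hI s hs (hst.trans ht)) hy hSs
      by_cases hSt : (t, y) ∈ SS
      · rw [detour_of_mem hSt]
        apply R s u v a hh c1 c2 c3 c4 t
        by_contra hcon
        push Not at hcon
        exact hh.2.1 t y (by linarith) hcon c3 c4 hSt
      · by_cases htu : t < u + a
        · rw [detour_of_hole hh c1 c2 c3 c4, detour_of_hole hh (c1.trans_le hst) htu c3 c4]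
          exact top_lip hst
        · push Not at htu
          obtain ⟨u', v', a', hh', d1, d2, d3, d4⟩ := exists_hole (hI t (hs.trans hst) ht) hy hSt
          have hw : (u + a, y) ∈ SS :=
            hh.2.2 _ _ (by linarith [hh.1]) le_rfl c3.le c4.le (Or.inr (Or.inl rfl))
          have hu' : u + a ≤ u' := by
            by_contra hcon
            push Not at hcon
            exact hh'.2.1 _ _ hcon (by linarith) d3 d4 hw
          have e1 := R s u v a hh c1 c2 c3 c4 (u + a) le_rfl
          have e2 := L t u' v' a' hh' d1 d2 d3 d4 (u + a) hu'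
          have e3 := l1_triangle (detour y s) (u + a, y) (detour y t)
          linarith
  have := conn_of_lip hx (by norm_num : (0 : ℝ) < 6) hmem hlip
  rw [detour_of_mem h0, detour_of_mem h1] at this
  exact this

theorem conn_horizontal {x₀ x₁ y : ℝ} (h0 : (x₀, y) ∈ SS) (h1 : (x₁, y) ∈ SS) :
    Conn (x₀, y) (x₁, y) (6 * |x₀ - x₁|) := by
  rcases le_total x₀ x₁ with h | h
  · rw [abs_sub_comm, abs_of_nonneg (sub_nonneg.2 h)]; exact detour_conn h h0 h1
  · rw [abs_of_nonneg (sub_nonneg.2 h)]; exact (detour_conn h h1 h0).symm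

theorem conn_vertical {x y₀ y₁ : ℝ} (h0 : (x, y₀) ∈ SS) (h1 : (x, y₁) ∈ SS) :
    Conn (x, y₀) (x, y₁) (6 * |y₀ - y₁|) := by
  have h0' : (y₀, x) ∈ SS := SS_swap h0
  have h1' : (y₁, x) ∈ SS := SS_swap h1
  exact (conn_horizontal h0' h1').swap

/-- Any two points of the carpet are joined by a curve in the carpet of length at most six times
their `ℓ¹` distance. -/
theorem conn_all {p q : ℝ × ℝ} (hp : p ∈ SS) (hq : q ∈ SS) : Conn p q (6 * l1 p q) := by
  obtain ⟨p1, p2⟩ := p
  obtain ⟨q1, q2⟩ := q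
  by_cases hc : (q1, p2) ∈ SS
  · have := (conn_horizontal hp hc).trans (conn_vertical hc hq)
    have e : 6 * l1 (p1, p2) (q1, q2) = 6 * |p1 - q1| + 6 * |p2 - q2| := by unfold l1; ring
    rw [e]; exact this
  · obtain ⟨u, v, a, hh, c1, c2, c3, c4⟩ := exists_hole hq.1 hp.2.1 hc
    have ha := hh.1
    -- the entry side
    obtain ⟨e1, he1, he1', he1''⟩ : ∃ e1 : ℝ, (e1 = u ∨ e1 = u + a) ∧
        |p1 - e1| + |e1 - q1| = |p1 - q1| ∧ (u ≤ e1 ∧ e1 ≤ u + a) := by
      by_cases h : p1 ≤ u
      · refine ⟨u, Or.inl rfl, ?_, le_rfl, by linarith⟩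
        rw [abs_of_nonpos (by linarith : p1 - u ≤ 0), abs_of_nonpos (by linarith : u - q1 ≤ 0),
          abs_of_nonpos (by linarith : p1 - q1 ≤ 0)]
        ring
      · have h' : u + a ≤ p1 := by
          by_contra hcon
          push Not at h hcon
          exact hh.2.1 _ _ h hcon c3 c4 hp
        refine ⟨u + a, Or.inr rfl, ?_, by linarith, le_rfl⟩
        rw [abs_of_nonneg (by linarith : 0 ≤ p1 - (u + a)),
          abs_of_nonneg (by linarith : 0 ≤ u + a - q1), abs_of_nonneg (by linarith : 0 ≤ p1 - q1)]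
        ring
    obtain ⟨e2, he2, he2', he2''⟩ : ∃ e2 : ℝ, (e2 = v ∨ e2 = v + a) ∧
        |p2 - e2| + |e2 - q2| = |p2 - q2| ∧ (v ≤ e2 ∧ e2 ≤ v + a) := by
      by_cases h : q2 ≤ v
      · refine ⟨v, Or.inl rfl, ?_, le_rfl, by linarith⟩
        rw [abs_of_nonneg (by linarith : 0 ≤ p2 - v), abs_of_nonneg (by linarith : 0 ≤ v - q2),
          abs_of_nonneg (by linarith : 0 ≤ p2 - q2)]
        ring
      · have h' : v + a ≤ q2 := by
          by_contra hcon
          push Not at h hcon
          exact hh.2.1 _ _ c1 c2 h hcon hq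
        refine ⟨v + a, Or.inr rfl, ?_, by linarith, le_rfl⟩
        rw [abs_of_nonpos (by linarith : p2 - (v + a) ≤ 0),
          abs_of_nonpos (by linarith : v + a - q2 ≤ 0), abs_of_nonpos (by linarith : p2 - q2 ≤ 0)]
        ring
    have m1 : (e1, p2) ∈ SS := by
      apply hh.2.2 _ _ he1''.1 he1''.2 c3.le c4.le
      rcases he1 with h | h
      · exact Or.inl h
      · exact Or.inr (Or.inl h)
    have m2 : (e1, e2) ∈ SS := by
      apply hh.2.2 _ _ he1''.1 he1''.2 he2''.1 he2''.2
      rcases he1 with h | h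
      · exact Or.inl h
      · exact Or.inr (Or.inl h)
    have m3 : (q1, e2) ∈ SS := by
      apply hh.2.2 _ _ c1.le c2.le he2''.1 he2''.2
      rcases he2 with h | h
      · exact Or.inr (Or.inr (Or.inl h))
      · exact Or.inr (Or.inr (Or.inr h))
    have := (((conn_horizontal hp m1).trans (conn_vertical m1 m2)).trans
      (conn_horizontal m2 m3)).trans (conn_vertical m3 hq)
    have e : 6 * l1 (p1, p2) (q1, q2) =
        6 * |p1 - e1| + 6 * |p2 - e2| + 6 * |e1 - q1| + 6 * |e2 - q2| := by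
      unfold l1
      simp only
      rw [← he1', ← he2']
      ring
    rw [e]
    exact this

end Pool.Agent.H971R3
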