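import Pool.Agent.H971R3.Space

/-!
# The carpet has covering dimension one
-/

namespace Pool.Agent.H971R3

open Set Filter Topology

theorem BB_ge (n : ℕ) : (n : ℤ) + 1 ≤ BB n := by
  induction n with
  | zero => simp [BB]
  | succ n ih =>
    have h1 := cc_pos n
    have h2 := BB_pos n
    simp only [BB]
    push_cast
    nlinarith

theorem exists_BB (C : ℝ) : ∃ n, C < BB n := by
  obtain ⟨n, hn⟩ := exists_nat_gt C
  refine ⟨n, ?_⟩
  have : ((n : ℤ) : ℝ) + 1 ≤ BB n := by exact_mod_cast BB_ge n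
  push_cast at this
  linarith

theorem zero_not_mem_UU (n : ℕ) : (0 : ℝ) ∉ UU n := by
  have := mult_not_mem (j := 0) (m := n) (by omega) 0
  simpa using this

theorem one_not_mem_UU (n : ℕ) : (1 : ℝ) ∉ UU n := by
  have := mult_not_mem (j := 0) (m := n) (by omega) 1
  simpa [BB] using this

theorem zero_mem_SS : ((0 : ℝ), (0 : ℝ)) ∈ SS :=
  ⟨by simp, by simp, fun n h => zero_not_mem_UU n h.1⟩

theorem one_mem_SS : ((1 : ℝ), (1 : ℝ)) ∈ SS :=
  ⟨by simp, by simp, fun n h => one_not_mem_UU n h.1⟩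

/-- half the mesh of the cells used in the cover of level `n`, slightly enlarged -/
noncomputable def rad (n : ℕ) : ℝ := 1 / (2 * BB n) + 1 / (2 * BB (n + 1))

theorem BB_succ_real (n : ℕ) : (BB (n + 1) : ℝ) = BB n * (2 * cc n + 1) := by
  simp [BB]

theorem rad_pos (n : ℕ) : 0 < rad n := by
  have h1 := BBR_pos n
  have h2 := BBR_pos (n + 1)
  unfold rad
  positivity

theorem rad_lt (n : ℕ) : rad n < 1 / BB n := by
  have h1 := BBR_pos n
  have h2 := BBR_pos (n + 1)
  have h3 : (0 : ℝ) < cc n := by exact_mod_cast cc_pos n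
  unfold rad
  have h4 : (BB n : ℝ) < BB (n + 1) := by
    rw [BB_succ_real]
    nlinarith
  have h5 : 1 / (2 * (BB (n + 1) : ℝ)) < 1 / (2 * BB n) :=
    one_div_lt_one_div_of_lt (by positivity) (by linarith)
  have h6 : 1 / (2 * (BB n : ℝ)) + 1 / (2 * BB n) = 1 / BB n := by field_simp; ring
  linarith

/-- The members of the cover. -/
def cell (n : ℕ) (k l : ℤ) : Set Carpet :=
  {p | |p.pt.1 - k / BB n| < rad n ∧ |p.pt.2 - l / BB n| < rad n}

theorem isOpen_cell (n : ℕ) (k l : ℤ) : IsOpen (cell n k l) := by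
  apply IsOpen.inter
  · exact isOpen_lt ((Carpet.continuous_fst.sub continuous_const).abs) continuous_const
  · exact isOpen_lt ((Carpet.continuous_snd.sub continuous_const).abs) continuous_const

theorem near_floor {n : ℕ} {x : ℝ} {k : ℤ} (h : |x - k / BB n| < rad n) :
    k = ⌊x * BB n⌋ ∨ k = ⌊x * BB n⌋ + 1 := by
  have hB := BBR_pos n
  have h1 : |x - k / BB n| < 1 / BB n := h.trans (rad_lt n)
  rw [abs_lt] at h1
  have h2 : x * BB n - k < 1 := by
    have := mul_lt_mul_of_pos_right h1.2 hB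
    rw [sub_mul, div_mul_cancel₀ _ hB.ne', one_div_mul_cancel hB.ne'] at this
    exact this
  have h3 : -1 < x * BB n - k := by
    have := mul_lt_mul_of_pos_right h1.1 hB
    rw [sub_mul, div_mul_cancel₀ _ hB.ne', neg_mul, one_div_mul_cancel hB.ne'] at this
    exact this
  have h4 := Int.floor_le (x * BB n)
  have h5 := Int.lt_floor_add_one (x * BB n)
  have h6 : ((⌊x * BB n⌋ : ℤ) : ℝ) - 1 < k := by linarith
  have h7 : (k : ℝ) < ((⌊x * BB n⌋ : ℤ) : ℝ) + 2 := by linarith
  have h6' : ⌊x * BB n⌋ - 1 < k := by exact_mod_cast h6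
  have h7' : k < ⌊x * BB n⌋ + 2 := by exact_mod_cast h7
  omega

theorem both_mem {n : ℕ} {x : ℝ} {k : ℤ} (h : |x - k / BB n| < rad n)
    (h' : |x - (k + 1 : ℤ) / BB n| < rad n) : x ∈ UU n := by
  have hB := BBR_pos n
  have hc : (0 : ℝ) < cc n := by exact_mod_cast cc_pos n
  have hB1 := BBR_pos (n + 1)
  rw [abs_lt] at h h'
  refine ⟨k, ?_, ?_⟩
  · have e : ((k * (2 * cc n + 1) + cc n : ℤ) : ℝ) / BB (n + 1) =
        ((k + 1 : ℤ) : ℝ) / BB n - rad n := by
      unfold rad
      rw [BB_succ_real]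
      push_cast
      field_simp
      ring
    rw [e]
    linarith [h'.1]
  · have e : ((k * (2 * cc n + 1) + cc n + 1 : ℤ) : ℝ) / BB (n + 1) =
        (k : ℝ) / BB n + rad n := by
      unfold rad
      rw [BB_succ_real]
      push_cast
      field_simp
      ring
    rw [e]
    linarith [h.2]

theorem exists_near {n : ℕ} {x : ℝ} (hx : x ∈ Icc (0 : ℝ) 1) :
    ∃ k : ℤ, 0 ≤ k ∧ k ≤ BB n ∧ |x - k / BB n| < rad n := by
  have hB := BBR_pos n
  have hB1 := BBR_pos (n + 1)
  refine ⟨⌊x * BB n + 1 / 2⌋, ?_, ?_, ?_⟩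
  · apply Int.floor_nonneg.2
    have := mul_nonneg hx.1 hB.le
    linarith
  · have h1 : ((⌊x * BB n + 1 / 2⌋ : ℤ) : ℝ) ≤ x * BB n + 1 / 2 := Int.floor_le _
    have h2 : x * BB n ≤ BB n := by nlinarith [hx.2]
    have h3 : ((⌊x * BB n + 1 / 2⌋ : ℤ) : ℝ) < BB n + 1 := by linarith
    have h4 : ⌊x * BB n + 1 / 2⌋ < BB n + 1 := by exact_mod_cast h3
    omega
  · have h1 : ((⌊x * BB n + 1 / 2⌋ : ℤ) : ℝ) ≤ x * BB n + 1 / 2 := Int.floor_le _
    have h2 := Int.lt_floor_add_one (x * BB n + 1 / 2)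
    set K : ℝ := ((⌊x * BB n + 1 / 2⌋ : ℤ) : ℝ) with hK
    have h3 : |x * BB n - K| ≤ 1 / 2 := by
      rw [abs_le]
      constructor <;> linarith
    have h4 : x - K / BB n = (x * BB n - K) / BB n := by field_simp
    rw [h4, abs_div, abs_of_pos hB]
    have h5 : |x * BB n - K| / BB n ≤ (1 / 2) / BB n := div_le_div_of_nonneg_right h3 hB.le
    have h6 : (1 / 2) / (BB n : ℝ) = 1 / (2 * BB n) := by field_simp
    have h7 : 0 < 1 / (2 * (BB (n + 1) : ℝ)) := by positivity
    unfold rad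
    linarith

theorem coveringDimLE_one : CoveringDimLE Carpet 1 := by
  intro 𝒰 _ hopen hcov
  obtain ⟨δ, hδ, hball⟩ := lebesgue_number_lemma_of_metric_sUnion (isCompact_univ (X := Carpet))
    hopen hcov.symm.subset
  obtain ⟨n, hn⟩ := exists_BB (24 / δ)
  have hB := BBR_pos n
  have hmesh : 24 * rad n < δ := by
    have h1 := rad_lt n
    have h2 : 24 / (BB n : ℝ) < δ := by
      rw [div_lt_iff₀ hδ] at hn
      rw [div_lt_iff₀ hB]
      linarith
    have h3 : 24 / (BB n : ℝ) = 24 * (1 / BB n) := by ring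
    linarith
  let 𝒱 : Set (Set Carpet) := (fun kl : ℤ × ℤ => cell n kl.1 kl.2) '' (Icc 0 (BB n) ×ˢ Icc 0 (BB n))
  refine ⟨𝒱, ?_, ?_, ?_, ?_, ?_⟩
  · exact ((finite_Icc _ _).prod (finite_Icc _ _)).image _
  · rintro V ⟨kl, _, rfl⟩
    exact isOpen_cell _ _ _
  · rw [eq_univ_iff_forall]
    intro p
    obtain ⟨k, hk0, hk1, hk⟩ := exists_near (n := n) p.mem.1
    obtain ⟨l, hl0, hl1, hl⟩ := exists_near (n := n) p.mem.2.1
    exact ⟨cell n k l, ⟨(k, l), ⟨⟨hk0, hk1⟩, ⟨hl0, hl1⟩⟩, rfl⟩, ⟨hk, hl⟩⟩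
  · rintro V ⟨⟨k, l⟩, _, rfl⟩
    rcases (cell n k l).eq_empty_or_nonempty with h | ⟨p, hp⟩
    · obtain ⟨U, hU, _⟩ := hball ⟨_, zero_mem_SS⟩ (mem_univ _)
      exact ⟨U, hU, by simp only [h]; exact empty_subset _⟩
    · obtain ⟨U, hU, hsub⟩ := hball p (mem_univ _)
      refine ⟨U, hU, fun q hq => hsub ?_⟩
      rw [Metric.mem_ball]
      refine (Carpet.dist_le q p).trans_lt ?_
      have h1 : |q.pt.1 - p.pt.1| ≤ 2 * rad n := by
        have := abs_sub_le q.pt.1 (k / BB n) p.pt.1
        rw [abs_sub_comm ((k : ℝ) / BB n)] at this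
        linarith [hq.1, hp.1]
      have h2 : |q.pt.2 - p.pt.2| ≤ 2 * rad n := by
        have := abs_sub_le q.pt.2 (l / BB n) p.pt.2
        rw [abs_sub_comm ((l : ℝ) / BB n)] at this
        linarith [hq.2, hp.2]
      unfold l1
      linarith
  · intro p
    set g := ⌊p.pt.1 * BB n⌋ with hg
    set f := ⌊p.pt.2 * BB n⌋ with hf
    have key : ∃ A B : Set Carpet, {V | V ∈ 𝒱 ∧ p ∈ V} ⊆ {A, B} := by
      by_cases hx : p.pt.1 ∈ UU n
      · have hy : p.pt.2 ∉ UU n := fun hy => p.mem.2.2 n ⟨hx, hy⟩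
        by_cases h1 : |p.pt.2 - (f : ℤ) / BB n| < rad n
        · refine ⟨cell n g f, cell n (g + 1) f, ?_⟩
          rintro V ⟨⟨⟨k, l⟩, _, rfl⟩, hp1, hp2⟩
          have hl : l = f := by
            rcases near_floor hp2 with h | h
            · exact h
            · exact absurd (both_mem h1 (by rw [← hf] at h; rw [← h]; exact hp2)) hy
          subst hl
          rcases near_floor hp1 with h | h
          · have h' : k = g := h
            left; rw [h']
          · have h' : k = g + 1 := h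
            right; rw [h']; rfl
        · refine ⟨cell n g (f + 1), cell n (g + 1) (f + 1), ?_⟩
          rintro V ⟨⟨⟨k, l⟩, _, rfl⟩, hp1, hp2⟩
          have hl : l = f + 1 := by
            rcases near_floor hp2 with h | h
            · exact absurd (by rw [← hf] at h; rw [← h]; exact hp2) h1
            · exact h
          subst hl
          rcases near_floor hp1 with h | h
          · have h' : k = g := h
            left; rw [h']
          · have h' : k = g + 1 := h
            right; rw [h']; rfl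
      · by_cases h1 : |p.pt.1 - (g : ℤ) / BB n| < rad n
        · refine ⟨cell n g f, cell n g (f + 1), ?_⟩
          rintro V ⟨⟨⟨k, l⟩, _, rfl⟩, hp1, hp2⟩
          have hl : k = g := by
            rcases near_floor hp1 with h | h
            · exact h
            · exact absurd (both_mem h1 (by rw [← hg] at h; rw [← h]; exact hp1)) hx
          subst hl
          rcases near_floor hp2 with h | h
          · have h' : l = f := h
            left; rw [h']
          · have h' : l = f + 1 := h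
            right; rw [h']; rfl
        · refine ⟨cell n (g + 1) f, cell n (g + 1) (f + 1), ?_⟩
          rintro V ⟨⟨⟨k, l⟩, _, rfl⟩, hp1, hp2⟩
          have hl : k = g + 1 := by
            rcases near_floor hp1 with h | h
            · exact absurd (by rw [← hg] at h; rw [← h]; exact hp1) h1
            · exact h
          subst hl
          rcases near_floor hp2 with h | h
          · have h' : l = f := h
            left; rw [h']
          · have h' : l = f + 1 := h
            right; rw [h']; rfl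
    obtain ⟨A, B, hAB⟩ := key
    refine (encard_le_encard hAB).trans ((encard_insert_le {B} A).trans ?_)
    rw [encard_singleton]
    norm_num

instance : PathConnectedSpace Carpet where
  nonempty := ⟨⟨_, zero_mem_SS⟩⟩
  joined p q := by
    obtain ⟨γ, _⟩ := exists_path (conn_all p.mem q.mem)
    exact ⟨γ⟩

theorem not_coveringDimLE_zero {X : Type*} [TopologicalSpace X] [T1Space X] [PreconnectedSpace X]
    {p q : X} (hpq : p ≠ q) : ¬ CoveringDimLE X 0 := by
  intro h
  obtain ⟨𝒱, hfin, hopen, hcov, href, hord⟩ := h {{p}ᶜ, {q}ᶜ} (by simp) (by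
    rintro U (rfl | rfl) <;> exact isOpen_compl_singleton) (by
    rw [eq_univ_iff_forall]
    intro x
    by_cases hx : x = p
    · exact ⟨{q}ᶜ, by simp, by subst hx; simpa using hpq⟩
    · exact ⟨{p}ᶜ, by simp, by simpa using hx⟩)
  obtain ⟨V, hV, hpV⟩ : ∃ V ∈ 𝒱, p ∈ V := by
    have : p ∈ ⋃₀ 𝒱 := by rw [hcov]; trivial
    simpa using this
  have hVc : Vᶜ = ⋃₀ (𝒱 \ {V}) := by
    ext x
    constructor
    · intro hx
      obtain ⟨W, hW, hxW⟩ : ∃ W ∈ 𝒱, x ∈ W := by
        have : x ∈ ⋃₀ 𝒱 := by rw [hcov]; trivial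
        simpa using this
      refine ⟨W, ⟨hW, ?_⟩, hxW⟩
      rintro rfl
      exact hx hxW
    · rintro ⟨W, ⟨hW, hne⟩, hxW⟩ hxV
      have h1 := hord x
      rw [Nat.cast_zero, zero_add, encard_le_one_iff] at h1
      exact hne (h1 W V ⟨hW, hxW⟩ ⟨hV, hxV⟩)
  have hclosed : IsClosed V := by
    rw [← isOpen_compl_iff, hVc]
    exact isOpen_sUnion fun W hW => hopen W hW.1
  have huniv : V = univ := IsClopen.eq_univ ⟨hclosed, hopen V hV⟩ ⟨p, hpV⟩
  obtain ⟨U, hU, hsub⟩ := href V hV
  rcases hU with rfl | rfl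
  · exact hsub hpV rfl
  · have : q ∈ V := by rw [huniv]; trivial
    exact hsub this rfl

theorem hasCoveringDim_one : HasCoveringDim Carpet 1 := by
  refine ⟨coveringDimLE_one, fun k hk => ?_⟩
  obtain rfl : k = 0 := by omega
  apply not_coveringDimLE_zero (p := (⟨_, zero_mem_SS⟩ : Carpet)) (q := ⟨_, one_mem_SS⟩)
  intro h
  have := congrArg (fun p : Carpet => p.pt.1) h
  simp at this

end Pool.Agent.H971R3
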