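import Pool.Agent.H971R3.Defs

/-!
# Metric graphs satisfy the four point inequality at small scales
-/

namespace Pool.Agent.H971R3

open Set Filter Topology

theorem edist_le_length {X : Type*} [MetricSpace X] {x y : X} (γ : Path x y) :
    edist x y ≤ curveLength γ := by
  have := eVariationOn.edist_le (fun t => γ t) (mem_univ (0 : unitInterval))
      (mem_univ (1 : unitInterval))
  simp only [Path.source, Path.target] at this
  exact this

/-- length of a curve passing through a point -/
theorem edist_add_edist_le {X : Type*} [MetricSpace X] {x y : X} (γ : Path x y)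
    (t : unitInterval) : edist x (γ t) + edist (γ t) y ≤ curveLength γ := by
  have h1 : edist (γ 0) (γ t) ≤ eVariationOn (fun t => γ t) (Iic t) :=
    eVariationOn.edist_le (fun t => γ t) (mem_Iic.2 unitInterval.nonneg') (mem_Iic.2 le_rfl)
  have h2 : edist (γ t) (γ 1) ≤ eVariationOn (fun t => γ t) (Ici t) :=
    eVariationOn.edist_le (fun t => γ t) (mem_Ici.2 le_rfl) (mem_Ici.2 unitInterval.le_one')
  have h3 : eVariationOn (fun t => γ t) (Iic t) + eVariationOn (fun t => γ t) (Ici t) ≤
      eVariationOn (fun t => γ t) (Iic t ∪ Ici t) :=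
    eVariationOn.add_le_union _ fun a ha b hb => le_trans ha hb
  rw [Path.source] at h1
  rw [Path.target] at h2
  refine (add_le_add h1 h2).trans (h3.trans ?_)
  exact eVariationOn.mono _ (subset_univ _)

/-- the initial piece of a path -/
def initialPath {X : Type*} [TopologicalSpace X] {x y : X} (γ : Path x y) (t : unitInterval) :
    Path x (γ t) where
  toFun s := γ (s * t)
  continuous_toFun := γ.continuous.comp (continuous_id.mul continuous_const)
  source' := by simp
  target' := by simp

theorem initialPath_length {X : Type*} [MetricSpace X] {x y : X} (γ : Path x y)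
    (t : unitInterval) : curveLength (initialPath γ t) ≤ curveLength γ := by
  unfold curveLength
  have : (fun s => (initialPath γ t) s) = (fun s => γ s) ∘ fun s => s * t := rfl
  rw [this]
  apply eVariationOn.comp_le_of_monotoneOn _ _ _ (mapsTo_univ _ _)
  intro a _ b _ hab
  exact mul_le_mul_left hab t

theorem exists_short_path {X : Type*} [MetricSpace X] (hL : IsLengthSpace X) {x y : X} {c : ℝ}
    (h : dist x y < c) : ∃ γ : Path x y, curveLength γ < ENNReal.ofReal c := by
  have h1 : edist x y < ENNReal.ofReal c := by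
    rw [edist_dist]
    exact (ENNReal.ofReal_lt_ofReal_iff (lt_of_le_of_lt dist_nonneg h)).2 h
  rw [hL x y] at h1
  exact iInf_lt_iff.1 h1

theorem dist_lt_of_path {X : Type*} [MetricSpace X] {x y : X} {γ : Path x y} {c : ℝ}
    (hγ : curveLength γ < ENNReal.ofReal c) (t : unitInterval) : dist x (γ t) < c := by
  have h1 : edist x (γ t) < ENNReal.ofReal c :=
    lt_of_le_of_lt (le_trans le_self_add (edist_add_edist_le γ t)) hγ
  rw [edist_dist] at h1
  exact (ENNReal.ofReal_lt_ofReal_iff_of_nonneg dist_nonneg).1 h1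

/-- four point inequality on the line -/
theorem line4 (a b c d : ℝ) : |a - c| + |b - d| ≤ max (|a - b| + |c - d|) (|a - d| + |b - c|) := by
  rw [le_max_iff]
  by_contra hcon
  push Not at hcon
  obtain ⟨h1, h2⟩ := hcon
  rcases abs_cases (a - c) with ⟨e1, _⟩ | ⟨e1, _⟩ <;> rcases abs_cases (b - d) with ⟨e2, _⟩ | ⟨e2, _⟩ <;>
  rw [e1, e2] at h1 h2 <;>
  linarith [le_abs_self (a - b), neg_abs_le (a - b), le_abs_self (c - d), neg_abs_le (c - d),
    le_abs_self (a - d), neg_abs_le (a - d), le_abs_self (b - c), neg_abs_le (b - c)]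

/-- four point inequality in a star -/
theorem star4 {a b c d : ℝ} (ha : 0 ≤ a) (hb : 0 ≤ b) (hc : 0 ≤ c) (hd : 0 ≤ d)
    {dab dac dad dbc dbd dcd : ℝ} {rab rac rad rbc rbd rcd : Prop}
    (hab : rab → dab = |a - b|) (hab' : ¬ rab → dab = a + b)
    (hac : rac → dac = |a - c|) (hac' : ¬ rac → dac = a + c)
    (had : rad → dad = |a - d|) (had' : ¬ rad → dad = a + d)
    (hbc : rbc → dbc = |b - c|) (hbc' : ¬ rbc → dbc = b + c)
    (hbd : rbd → dbd = |b - d|) (hbd' : ¬ rbd → dbd = b + d)
    (hcd : rcd → dcd = |c - d|) (hcd' : ¬ rcd → dcd = c + d)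
    (t1 : rab → rbc → rac) (t2 : rab → rac → rbc) (t3 : rac → rbc → rab)
    (t4 : rab → rbd → rad) (t5 : rab → rad → rbd) (t6 : rad → rbd → rab)
    (t7 : rac → rcd → rad) (t8 : rac → rad → rcd) (t9 : rad → rcd → rac)
    (t10 : rbc → rcd → rbd) (t11 : rbc → rbd → rcd) (t12 : rbd → rcd → rbc) :
    dac + dbd ≤ max (dab + dcd) (dad + dbc) := by
  have Lab : |a - b| ≤ a + b := by rw [abs_le]; constructor <;> linarith
  have Lac : |a - c| ≤ a + c := by rw [abs_le]; constructor <;> linarith
  have Lbd : |b - d| ≤ b + d := by rw [abs_le]; constructor <;> linarith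
  by_cases h1 : rac
  · by_cases h2 : rbd
    · by_cases h3 : rab
      · have h4 := t2 h3 h1
        have h5 := t4 h3 h2
        have h6 := t8 h1 h5
        rw [hac h1, hbd h2, hab h3, hcd h6, had h5, hbc h4]
        exact line4 a b c d
      · have h6 : ¬ rcd := fun h => h3 (t6 (t7 h1 h) h2)
        rw [hac h1, hbd h2, hab' h3, hcd' h6]
        exact le_max_of_le_left (by linarith)
    · rw [hac h1, hbd' h2]
      by_cases h3 : rab
      · have h4 := t2 h3 h1
        have h5 : ¬ rad := fun h => h2 (t5 h3 h)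
        have h6 : ¬ rcd := fun h => h5 (t7 h1 h)
        rw [hab h3, hcd' h6, had' h5, hbc h4]
        rcases le_total a c with h | h
        · apply le_max_of_le_left
          rw [abs_of_nonpos (by linarith : a - c ≤ 0)]
          linarith [neg_abs_le (a - b)]
        · apply le_max_of_le_right
          rw [abs_of_nonneg (by linarith : 0 ≤ a - c)]
          linarith [le_abs_self (b - c)]
      · have h4 : ¬ rbc := fun h => h3 (t3 h1 h)
        rw [hab' h3, hbc' h4]
        by_cases h5 : rad
        · have h6 := t8 h1 h5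
          rw [hcd h6, had h5]
          rcases le_total a c with h | h
          · apply le_max_of_le_right
            rw [abs_of_nonpos (by linarith : a - c ≤ 0)]
            linarith [neg_abs_le (a - d)]
          · apply le_max_of_le_left
            rw [abs_of_nonneg (by linarith : 0 ≤ a - c)]
            linarith [neg_abs_le (c - d)]
        · have h6 : ¬ rcd := fun h => h5 (t7 h1 h)
          rw [hcd' h6]
          exact le_max_of_le_left (by linarith)
  · by_cases h2 : rbd
    · rw [hac' h1, hbd h2]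
      by_cases h3 : rab
      · have h5 := t4 h3 h2
        have h4 : ¬ rbc := fun h => h1 (t1 h3 h)
        have h6 : ¬ rcd := fun h => h1 (t9 h5 h)
        rw [hab h3, hcd' h6, had h5, hbc' h4]
        rcases le_total b d with h | h
        · apply le_max_of_le_left
          rw [abs_of_nonpos (by linarith : b - d ≤ 0)]
          linarith [le_abs_self (a - b)]
        · apply le_max_of_le_right
          rw [abs_of_nonneg (by linarith : 0 ≤ b - d)]
          linarith [le_abs_self (a - d)]
      · have h5 : ¬ rad := fun h => h3 (t6 h h2)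
        rw [hab' h3, had' h5]
        by_cases h4 : rbc
        · have h6 := t11 h4 h2
          rw [hbc h4, hcd h6]
          rcases le_total b d with h | h
          · apply le_max_of_le_right
            rw [abs_of_nonpos (by linarith : b - d ≤ 0)]
            linarith [neg_abs_le (b - c)]
          · apply le_max_of_le_left
            rw [abs_of_nonneg (by linarith : 0 ≤ b - d)]
            linarith [le_abs_self (c - d)]
        · have h6 : ¬ rcd := fun h => h4 (t12 h2 h)
          rw [hcd' h6]
          exact le_max_of_le_left (by linarith)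
    · rw [hac' h1, hbd' h2]
      by_cases h3 : rab
      · have h4 : ¬ rbc := fun h => h1 (t1 h3 h)
        have h5 : ¬ rad := fun h => h2 (t5 h3 h)
        rw [had' h5, hbc' h4]
        exact le_max_of_le_right (by linarith)
      · by_cases h6 : rcd
        · have h4 : ¬ rbc := fun h => h2 (t10 h h6)
          have h5 : ¬ rad := fun h => h1 (t9 h h6)
          rw [had' h5, hbc' h4]
          exact le_max_of_le_right (by linarith)
        · rw [hab' h3, hcd' h6]
          exact le_max_of_le_left (by linarith)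

section
variable {M : Type*} [MetricSpace M] {ι : Type*} {V : Set M} {O A : ι → Set M} {ρ : ι → M → ℝ}

/-- A curve leaving an open edge first meets a vertex of the edge. -/
theorem exit_edge (hO : ∀ e, IsOpen (O e)) (hA : ∀ e, IsClosed (A e)) (hOA : ∀ e, O e ⊆ A e)
    (hdisj : ∀ e e', e ≠ e' → Disjoint (O e) (O e')) (hcov : ∀ x, x ∈ V ∨ ∃ e, x ∈ O e)
    {e : ι} {x y : M} (γ : Path x y) (hx : x ∈ O e) (h : ∃ t, γ t ∉ O e) :
    ∃ t, γ t ∈ V ∧ γ t ∈ A e ∧ ∀ s, (initialPath γ t) s ∈ A e := by
  have hT : IsCompact {t : unitInterval | γ t ∉ O e} :=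
    (((hO e).preimage γ.continuous).isClosed_compl).isCompact
  obtain ⟨t0, ht0, hmin⟩ := hT.exists_isLeast h
  have hbefore : ∀ t < t0, γ t ∈ O e := by
    intro t ht
    by_contra hcon
    exact absurd (hmin hcon) (not_le.2 ht)
  have h0 : (0 : unitInterval) < t0 := by
    rcases eq_or_lt_of_le (unitInterval.nonneg' : (0 : unitInterval) ≤ t0) with h' | h'
    · exfalso
      apply ht0
      rw [← h', γ.source]
      exact hx
    · exact h'
  have hcl : γ t0 ∈ closure (O e) := by
    have h1 : t0 ∈ closure (Iio t0) := by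
      have : (Iio t0).Nonempty := ⟨0, h0⟩
      rw [closure_Iio' this]
      exact mem_Iic.2 le_rfl
    have h2 : MapsTo γ (Iio t0) (O e) := fun t ht => hbefore t ht
    exact h2.closure γ.continuous h1
  have hAt : γ t0 ∈ A e := closure_minimal (hOA e) (hA e) hcl
  refine ⟨t0, ?_, hAt, ?_⟩
  · rcases hcov (γ t0) with hv | ⟨e', he'⟩
    · exact hv
    · exfalso
      by_cases hee : e = e'
      · subst hee; exact ht0 he'
      · obtain ⟨z, hz1, hz2⟩ := mem_closure_iff.1 hcl (O e') (hO e') he'
        exact (Set.disjoint_left.1 (hdisj e e' hee)) hz2 hz1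
  · intro s
    show γ (s * t0) ∈ A e
    rcases eq_or_lt_of_le (show s * t0 ≤ t0 from unitInterval.mul_le_right) with h' | h'
    · rw [h']; exact hAt
    · exact hOA e (hbefore _ h')

theorem fourPoint_local (hL : IsLengthSpace M) (hV : V.Finite)
    (hO : ∀ e, IsOpen (O e)) (hA : ∀ e, IsClosed (A e)) (hOA : ∀ e, O e ⊆ A e)
    (hdisj : ∀ e e', e ≠ e' → Disjoint (O e) (O e')) (hcov : ∀ x, x ∈ V ∨ ∃ e, x ∈ O e)
    (hVO : ∀ e, Disjoint V (O e))
    (hle : ∀ e x y, x ∈ A e → y ∈ A e → dist x y ≤ |ρ e x - ρ e y|)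
    (hge : ∀ e x y, ∀ γ : Path x y, (∀ t, γ t ∈ A e) →
      ENNReal.ofReal |ρ e x - ρ e y| ≤ curveLength γ)
    (hend : ∀ e v, v ∈ V → v ∈ A e → (∀ x ∈ A e, ρ e v ≤ ρ e x) ∨ ∀ x ∈ A e, ρ e x ≤ ρ e v)
    (m : M) : ∃ r > 0, ∀ p q w s : M, p ∈ Metric.ball m r → q ∈ Metric.ball m r →
      w ∈ Metric.ball m r → s ∈ Metric.ball m r →
      dist p w + dist q s ≤ max (dist p q + dist w s) (dist p s + dist q w) := by
  -- isolate the vertices
  obtain ⟨R, hR, hRV⟩ : ∃ R > 0, ∀ v ∈ V, dist m v < R → v = m := by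
    have h1 : IsOpen (V \ {m})ᶜ := (hV.subset sdiff_subset).isClosed.isOpen_compl
    have h2 : m ∈ (V \ {m})ᶜ := by simp
    obtain ⟨R, hR, hsub⟩ := Metric.isOpen_iff.1 h1 m h2
    refine ⟨R, hR, fun v hv hd => ?_⟩
    by_contra hne
    have : v ∈ (V \ {m})ᶜ := hsub (by rw [Metric.mem_ball, dist_comm]; exact hd)
    exact this ⟨hv, hne⟩
  refine ⟨R / 4, by linarith, ?_⟩
  -- short paths between points near m
  have short : ∀ x y, x ∈ Metric.ball m (R / 4) → y ∈ Metric.ball m (R / 4) → ∀ c, dist x y < c →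
      ∃ γ : Path x y, curveLength γ < ENNReal.ofReal c ∧ ∀ t, dist m (γ t) < R := by
    intro x y hx hy c hc
    rw [Metric.mem_ball] at hx hy
    have h1 : dist x y < R / 2 := by
      have := dist_triangle_right x y m
      linarith
    obtain ⟨γ, hγ⟩ := exists_short_path hL (lt_min hc h1)
    refine ⟨γ, hγ.trans_le (ENNReal.ofReal_le_ofReal (min_le_left _ _)), fun t => ?_⟩
    have h2 := dist_lt_of_path (hγ.trans_le (ENNReal.ofReal_le_ofReal (min_le_right _ _))) t
    have h3 := dist_triangle m x (γ t)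
    rw [dist_comm m x] at h3
    linarith
  have hm0 : m ∈ Metric.ball m (R / 4) := Metric.mem_ball_self (by linarith)
  -- lower bound for the inner coordinate
  have le_of_short : ∀ (u w : ℝ), 0 ≤ w → (∀ c, w < c → u < c) → u ≤ w := by
    intro u w _ h
    exact le_of_forall_gt fun c hc => h c hc
  by_cases hmV : m ∈ V
  · -- star case
    have F1 : ∀ e x, x ∈ O e → x ∈ Metric.ball m (R / 4) →
        m ∈ A e ∧ |ρ e x - ρ e m| ≤ dist x m := by
      intro e x hxe hx
      have hme : m ∉ O e := fun h => (Set.disjoint_left.1 (hVO e)) hmV h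
      have key : ∀ c, dist x m < c → m ∈ A e ∧ |ρ e x - ρ e m| < c := by
        intro c hc
        obtain ⟨γ, hγ, hball⟩ := short x m hx hm0 c hc
        obtain ⟨t, ht1, ht2, ht3⟩ := exit_edge hO hA hOA hdisj hcov γ hxe
          ⟨1, by rw [γ.target]; exact hme⟩
        have htm : γ t = m := hRV _ ht1 (hball t)
        have h1 : ENNReal.ofReal |ρ e x - ρ e (γ t)| ≤ curveLength γ :=
          (hge e x (γ t) (initialPath γ t) ht3).trans (initialPath_length γ t)
        rw [htm] at ht2 h1
        refine ⟨ht2, ?_⟩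
        have h2 : ENNReal.ofReal |ρ e x - ρ e m| < ENNReal.ofReal c := lt_of_le_of_lt h1 hγ
        exact (ENNReal.ofReal_lt_ofReal_iff_of_nonneg (abs_nonneg _)).1 h2
      exact ⟨(key _ (lt_add_one _)).1, le_of_short _ _ dist_nonneg fun c hc => (key c hc).2⟩
    have F2 : ∀ e x y, x ∈ O e → y ∉ O e → x ∈ Metric.ball m (R / 4) →
        y ∈ Metric.ball m (R / 4) → dist x y = dist x m + dist y m := by
      intro e x y hxe hye hx hy
      apply le_antisymm (dist_triangle_right x y m)
      apply le_of_short _ _ dist_nonneg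
      intro c hc
      obtain ⟨γ, hγ, hball⟩ := short x y hx hy c hc
      obtain ⟨t, ht1, ht2, ht3⟩ := exit_edge hO hA hOA hdisj hcov γ hxe
        ⟨1, by rw [γ.target]; exact hye⟩
      have htm : γ t = m := hRV _ ht1 (hball t)
      have h1 := edist_add_edist_le γ t
      rw [htm] at h1
      have h2 : ENNReal.ofReal (dist x m + dist y m) < ENNReal.ofReal c := by
        rw [ENNReal.ofReal_add dist_nonneg dist_nonneg, ← edist_dist, ← edist_dist, edist_comm y m]
        exact lt_of_le_of_lt h1 hγ
      exact (ENNReal.ofReal_lt_ofReal_iff_of_nonneg (by positivity)).1 h2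
    have F3 : ∀ e x y, x ∈ O e → y ∈ O e → x ∈ Metric.ball m (R / 4) →
        y ∈ Metric.ball m (R / 4) → dist x y = |dist x m - dist y m| := by
      intro e x y hxe hye hx hy
      obtain ⟨hme, h1⟩ := F1 e x hxe hx
      obtain ⟨_, h2⟩ := F1 e y hye hy
      have h1' := hle e x m (hOA e hxe) hme
      have h2' := hle e y m (hOA e hye) hme
      have e1 : dist x m = |ρ e x - ρ e m| := le_antisymm h1' h1
      have e2 : dist y m = |ρ e y - ρ e m| := le_antisymm h2' h2
      have h3 := hle e x y (hOA e hxe) (hOA e hye)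
      apply le_antisymm _ (abs_dist_sub_le x y m)
      rcases hend e m hmV hme with h | h
      · have a1 := h x (hOA e hxe)
        have a2 := h y (hOA e hye)
        rw [e1, e2, abs_of_nonneg (sub_nonneg.2 a1), abs_of_nonneg (sub_nonneg.2 a2)]
        refine h3.trans (le_of_eq ?_)
        congr 1; ring
      · have a1 := h x (hOA e hxe)
        have a2 := h y (hOA e hye)
        rw [e1, e2, abs_of_nonpos (sub_nonpos.2 a1), abs_of_nonpos (sub_nonpos.2 a2)]
        refine h3.trans (le_of_eq ?_)
        rw [← abs_neg]; congr 1; ring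
    have G1 : ∀ x y, x ∈ Metric.ball m (R / 4) → y ∈ Metric.ball m (R / 4) →
        (∃ e, x ∈ O e ∧ y ∈ O e) → dist x y = |dist x m - dist y m| := by
      rintro x y hx hy ⟨e, h1, h2⟩
      exact F3 e x y h1 h2 hx hy
    have G2 : ∀ x y, x ∈ Metric.ball m (R / 4) → y ∈ Metric.ball m (R / 4) →
        (¬ ∃ e, x ∈ O e ∧ y ∈ O e) → dist x y = dist x m + dist y m := by
      intro x y hx hy hne
      rcases hcov x with hxV | ⟨e, he⟩
      · have : x = m := hRV x hxV (by rw [Metric.mem_ball, dist_comm] at hx; linarith)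
        rw [this, dist_self, zero_add, dist_comm]
      · exact F2 e x y he (fun h => hne ⟨e, he, h⟩) hx hy
    have T : ∀ x y z : M, (∃ e, x ∈ O e ∧ y ∈ O e) → (∃ e, y ∈ O e ∧ z ∈ O e) →
        ∃ e, x ∈ O e ∧ z ∈ O e := by
      rintro x y z ⟨e, h1, h2⟩ ⟨e', h3, h4⟩
      have : e = e' := by
        by_contra hne
        exact (Set.disjoint_left.1 (hdisj e e' hne)) h2 h3
      subst this
      exact ⟨e, h1, h4⟩
    have Sy : ∀ x y : M, (∃ e, x ∈ O e ∧ y ∈ O e) → ∃ e, y ∈ O e ∧ x ∈ O e := by
      rintro x y ⟨e, h1, h2⟩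
      exact ⟨e, h2, h1⟩
    intro p q w s hp hq hw hs
    exact star4 (a := dist p m) (b := dist q m) (c := dist w m) (d := dist s m)
      dist_nonneg dist_nonneg dist_nonneg dist_nonneg
      (G1 p q hp hq) (G2 p q hp hq) (G1 p w hp hw) (G2 p w hp hw) (G1 p s hp hs) (G2 p s hp hs)
      (G1 q w hq hw) (G2 q w hq hw) (G1 q s hq hs) (G2 q s hq hs) (G1 w s hw hs) (G2 w s hw hs)
      (fun h h' => T p q w h h') (fun h h' => T q p w (Sy _ _ h) h')
      (fun h h' => T p w q h (Sy _ _ h'))
      (fun h h' => T p q s h h') (fun h h' => T q p s (Sy _ _ h) h')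
      (fun h h' => T p s q h (Sy _ _ h'))
      (fun h h' => T p w s h h') (fun h h' => T w p s (Sy _ _ h) h')
      (fun h h' => T p s w h (Sy _ _ h'))
      (fun h h' => T q w s h h') (fun h h' => T w q s (Sy _ _ h) h')
      (fun h h' => T q s w h (Sy _ _ h'))
  · -- interior of an edge
    obtain ⟨e, hme⟩ : ∃ e, m ∈ O e := (hcov m).resolve_left hmV
    have noV : ∀ v ∈ V, ¬ dist m v < R := fun v hv hd => hmV (hRV v hv hd ▸ hv)
    have H1 : ∀ x, x ∈ Metric.ball m (R / 4) → x ∈ O e := by
      intro x hx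
      by_contra hxe
      obtain ⟨γ, _, hball⟩ := short m x hm0 hx _ (lt_add_one _)
      obtain ⟨t, ht1, _, _⟩ := exit_edge hO hA hOA hdisj hcov γ hme
        ⟨1, by rw [γ.target]; exact hxe⟩
      exact noV _ ht1 (hball t)
    have H2 : ∀ x y, x ∈ Metric.ball m (R / 4) → y ∈ Metric.ball m (R / 4) →
        dist x y = |ρ e x - ρ e y| := by
      intro x y hx hy
      apply le_antisymm (hle e x y (hOA e (H1 x hx)) (hOA e (H1 y hy)))
      apply le_of_short _ _ dist_nonneg
      intro c hc
      obtain ⟨γ, hγ, hball⟩ := short x y hx hy c hc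
      have hin : ∀ t, γ t ∈ A e := by
        intro t
        by_contra hcon
        obtain ⟨t', ht1, _, _⟩ := exit_edge hO hA hOA hdisj hcov γ (H1 x hx)
          ⟨t, fun h => hcon (hOA e h)⟩
        exact noV _ ht1 (hball t')
      have h2 := lt_of_le_of_lt (hge e x y γ hin) hγ
      exact (ENNReal.ofReal_lt_ofReal_iff_of_nonneg (abs_nonneg _)).1 h2
    intro p q w s hp hq hw hs
    rw [H2 p w hp hw, H2 q s hq hs, H2 p q hp hq, H2 w s hw hs, H2 p s hp hs, H2 q w hq hw]
    exact line4 _ _ _ _

theorem fourPoint_of_local [CompactSpace M]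
    (hloc : ∀ m : M, ∃ r > 0, ∀ p q w s : M, p ∈ Metric.ball m r → q ∈ Metric.ball m r →
      w ∈ Metric.ball m r → s ∈ Metric.ball m r →
      dist p w + dist q s ≤ max (dist p q + dist w s) (dist p s + dist q w)) :
    ∃ η > 0, FourPointAt M η := by
  choose r hr hloc using hloc
  obtain ⟨δ, hδ, hball⟩ := lebesgue_number_lemma_of_metric (isCompact_univ (X := M))
    (c := fun m => Metric.ball m (r m)) (fun m => Metric.isOpen_ball)
    (fun m _ => mem_iUnion.2 ⟨m, Metric.mem_ball_self (hr m)⟩)
  refine ⟨δ / 2, half_pos hδ, ?_⟩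
  intro p q w s hq hw hs
  obtain ⟨m, hm⟩ := hball p (mem_univ _)
  have hb : ∀ x, dist p x ≤ δ / 2 → x ∈ Metric.ball m (r m) := by
    intro x hx
    apply hm
    rw [Metric.mem_ball, dist_comm]
    linarith
  exact hloc m p q w s (hb p (by rw [dist_self]; linarith)) (hb q hq) (hb w hw) (hb s hs)

end

end Pool.Agent.H971R3
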