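import Pool.Agent.H971R3.Graph

/-!
# Minkowski polyhedra of dimension one are metric graphs
-/

namespace Pool.Agent.H971R3

open Set Filter Topology

theorem space_isCompact {N : ℕ} (K : Geometry.SimplicialComplex ℝ (Fin N → ℝ))
    (hK : K.faces.Finite) : IsCompact K.space := by
  unfold Geometry.SimplicialComplex.space
  exact hK.isCompact_biUnion fun s _ => s.finite_toSet.isCompact_convexHull (𝕜 := ℝ)

theorem IsMinkowskiPolyhedron.compactSpace {d : ℕ} {M : Type*} [MetricSpace M]
    (h : IsMinkowskiPolyhedron d M) : CompactSpace M := by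
  obtain ⟨_, N, K, f, hK, _⟩ := h
  have := isCompact_iff_compactSpace.1 (space_isCompact K hK)
  exact f.compactSpace

theorem dist_segment {F : Type*} [NormedAddCommGroup F] [NormedSpace ℝ F] {A B P Q : F}
    (hP : P ∈ segment ℝ A B) (hQ : Q ∈ segment ℝ A B) : dist P Q = |dist P A - dist Q A| := by
  rw [segment_eq_image'] at hP hQ
  obtain ⟨s, hs, rfl⟩ := hP
  obtain ⟨t, ht, rfl⟩ := hQ
  have e1 : dist (A + s • (B - A)) (A + t • (B - A)) = |s - t| * ‖B - A‖ := by
    rw [dist_eq_norm, show A + s • (B - A) - (A + t • (B - A)) = (s - t) • (B - A) by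
      rw [sub_smul]; abel, norm_smul, Real.norm_eq_abs]
  have e2 : ∀ u : ℝ, 0 ≤ u → dist (A + u • (B - A)) A = u * ‖B - A‖ := by
    intro u hu
    rw [dist_eq_norm, add_sub_cancel_left, norm_smul, Real.norm_eq_abs, abs_of_nonneg hu]
  rw [e1, e2 s hs.1, e2 t ht.1, ← sub_mul, abs_mul, abs_norm]

theorem dist_segment_le {F : Type*} [NormedAddCommGroup F] [NormedSpace ℝ F] {A B P : F}
    (hP : P ∈ segment ℝ A B) : dist P A ≤ dist B A := by
  rw [segment_eq_image'] at hP
  obtain ⟨s, hs, rfl⟩ := hP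
  rw [dist_eq_norm, dist_eq_norm, add_sub_cancel_left, norm_smul, Real.norm_eq_abs,
    abs_of_nonneg hs.1]
  have := norm_nonneg (B - A)
  nlinarith [hs.2]

theorem IsMinkowskiPolyhedron.fourPoint {M : Type*} [MetricSpace M]
    (h : IsMinkowskiPolyhedron 1 M) : ∃ η > 0, FourPointAt M η := by
  classical
  have hcomp := h.compactSpace
  obtain ⟨hL, N, K, f, hK, hcard, hiso⟩ := h
  let ι := {s : Finset (Fin N → ℝ) // s ∈ K.faces ∧ s.card = 2}
  let V : Set M := f '' {z | z.1 ∈ K.vertices}
  let A : ι → Set M := fun e => f '' {z | z.1 ∈ convexHull ℝ (e.1 : Set (Fin N → ℝ))}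
  let O : ι → Set M := fun e =>
    f '' {z | z.1 ∈ convexHull ℝ (e.1 : Set (Fin N → ℝ)) ∧ z.1 ∉ K.vertices}
  -- intersection of different faces with an edge
  have hinter : ∀ (e : ι) (s : Finset (Fin N → ℝ)), s ∈ K.faces → s ≠ e.1 → ∀ z,
      z ∈ convexHull ℝ (e.1 : Set (Fin N → ℝ)) → z ∈ convexHull ℝ (s : Set (Fin N → ℝ)) →
      z ∈ K.vertices := by
    intro e s hs hne z hz hz'
    have h1 := K.inter_subset_convexHull e.2.1 hs ⟨hz, hz'⟩
    rw [← Finset.coe_inter] at h1
    have hnon : (e.1 ∩ s).Nonempty := by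
      rw [Finset.nonempty_iff_ne_empty]
      intro h0
      rw [h0, Finset.coe_empty, convexHull_empty] at h1
      exact h1
    have hlt : (e.1 ∩ s).card < 2 := by
      by_contra hcon
      push Not at hcon
      have e1 : e.1 ∩ s = e.1 := Finset.eq_of_subset_of_card_le Finset.inter_subset_left
        (by rw [e.2.2]; exact hcon)
      have e2 : e.1 ⊆ s := by rw [← e1]; exact Finset.inter_subset_right
      have e3 : e.1 = s := Finset.eq_of_subset_of_card_le e2 (by
        rw [e.2.2]; exact hcard s hs)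
      exact hne e3.symm
    have hone : (e.1 ∩ s).card = 1 := by
      have := hnon.card_pos
      omega
    obtain ⟨v, hv⟩ := Finset.card_eq_one.1 hone
    rw [hv, Finset.coe_singleton, convexHull_singleton] at h1
    have h2 : z = v := h1
    rw [h2, Geometry.SimplicialComplex.mem_vertices]
    apply K.down_closed e.2.1 _ (Finset.singleton_nonempty v)
    rw [← hv]
    exact Finset.inter_subset_left
  have hVfin : V.Finite := by
    apply Set.Finite.image
    have h1 : K.vertices.Finite := by
      have : (fun x : Fin N → ℝ => ({x} : Finset (Fin N → ℝ))) '' K.vertices ⊆ K.faces := by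
        rintro _ ⟨x, hx, rfl⟩
        exact hx
      exact Set.Finite.of_finite_image (hK.subset this)
        (fun a _ b _ hab => Finset.singleton_injective hab)
    exact h1.preimage Subtype.val_injective.injOn
  have hfaceclosed : ∀ s : Finset (Fin N → ℝ),
      IsClosed {z : K.space | z.1 ∈ convexHull ℝ (s : Set (Fin N → ℝ))} := fun s =>
    ((s.finite_toSet.isCompact_convexHull (𝕜 := ℝ)).isClosed).preimage continuous_subtype_val
  have hO : ∀ e, IsOpen (O e) := by
    intro e
    have h1 : {z : K.space | z.1 ∈ convexHull ℝ (e.1 : Set (Fin N → ℝ)) ∧ z.1 ∉ K.vertices} =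
        (⋃ s ∈ K.faces \ {e.1}, {z : K.space | z.1 ∈ convexHull ℝ (s : Set (Fin N → ℝ))})ᶜ := by
      ext z
      constructor
      · rintro ⟨hz1, hz2⟩ hz3
        rw [mem_iUnion₂] at hz3
        obtain ⟨s, hs, hzs⟩ := hz3
        exact hz2 (hinter e s hs.1 (fun h => hs.2 h) z.1 hz1 hzs)
      · intro hz
        rw [mem_compl_iff, mem_iUnion₂] at hz
        push Not at hz
        obtain ⟨s, hs, hzs⟩ := Geometry.SimplicialComplex.mem_space_iff.1 z.2
        have hse : s = e.1 := by
          by_contra hne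
          exact hz s ⟨hs, fun h => hne h⟩ hzs
        refine ⟨by rw [← hse]; exact hzs, fun hv => ?_⟩
        apply hz {z.1} ⟨hv, ?_⟩
        · show z.1 ∈ convexHull ℝ ((({z.1} : Finset (Fin N → ℝ))) : Set (Fin N → ℝ))
          rw [Finset.coe_singleton, convexHull_singleton]
          rfl
        · intro h
          have h2 : ({z.1} : Finset (Fin N → ℝ)) = e.1 := h
          have h3 := e.2.2
          rw [← h2, Finset.card_singleton] at h3
          omega
    have h2 : IsOpen {z : K.space | z.1 ∈ convexHull ℝ (e.1 : Set (Fin N → ℝ)) ∧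
        z.1 ∉ K.vertices} := by
      rw [h1]
      exact ((hK.subset sdiff_subset).isClosed_biUnion fun s _ => hfaceclosed s).isOpen_compl
    exact f.isOpenMap _ h2
  have hA : ∀ e, IsClosed (A e) := fun e => f.isClosedMap _ (hfaceclosed e.1)
  have hOA : ∀ e, O e ⊆ A e := fun e => image_mono fun z hz => hz.1
  have hdisj : ∀ e e', e ≠ e' → Disjoint (O e) (O e') := by
    intro e e' hne
    rw [Set.disjoint_left]
    rintro _ ⟨z, ⟨hz1, hz2⟩, rfl⟩ ⟨z', ⟨hz1', hz2'⟩, hzz⟩
    have : z' = z := f.injective hzz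
    subst this
    exact hz2 (hinter e e'.1 e'.2.1 (fun h => hne (Subtype.ext h.symm)) z'.1 hz1 hz1')
  have hcov : ∀ x, x ∈ V ∨ ∃ e, x ∈ O e := by
    intro x
    obtain ⟨z, rfl⟩ := f.surjective x
    by_cases hv : z.1 ∈ K.vertices
    · exact Or.inl ⟨z, hv, rfl⟩
    · right
      obtain ⟨s, hs, hzs⟩ := Geometry.SimplicialComplex.mem_space_iff.1 z.2
      have hc : s.card = 2 := by
        have h1 := hcard s hs
        have h2 := (Geometry.SimplicialComplex.nonempty_of_mem_faces hs).card_pos
        have h3 : s.card ≠ 1 := by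
          intro h3
          obtain ⟨v, hv'⟩ := Finset.card_eq_one.1 h3
          rw [hv', Finset.coe_singleton, convexHull_singleton] at hzs
          have : z.1 = v := hzs
          apply hv
          rw [this, Geometry.SimplicialComplex.mem_vertices, ← hv']
          exact hs
        omega
      exact ⟨⟨s, hs, hc⟩, z, ⟨hzs, hv⟩, rfl⟩
  have hVO : ∀ e, Disjoint V (O e) := by
    intro e
    rw [Set.disjoint_left]
    rintro _ ⟨z, hz, rfl⟩ ⟨z', ⟨_, hz2'⟩, hzz⟩
    have : z' = z := f.injective hzz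
    subst this
    exact hz2' hz
  -- the arclength coordinate
  have hcoord : ∀ e : ι, ∃ ρ : M → ℝ, (∀ x y, x ∈ A e → y ∈ A e →
      innerDist (A e) x y = ENNReal.ofReal |ρ x - ρ y|) ∧
      ∀ v, v ∈ V → v ∈ A e → (∀ x ∈ A e, ρ v ≤ ρ x) ∨ ∀ x ∈ A e, ρ x ≤ ρ v := by
    intro e
    obtain ⟨F, i1, i2, i, _, _, himg, hdist⟩ := hiso e.1 e.2.1
    obtain ⟨a, b, hab, hs⟩ := Finset.card_eq_two.1 e.2.2
    have hset : ((e.1 : Finset (Fin N → ℝ)) : Set (Fin N → ℝ)) = {a, b} := by
      rw [hs]; simp
    have hseg : ∀ z, z ∈ convexHull ℝ (e.1 : Set (Fin N → ℝ)) → i z ∈ segment ℝ (i a) (i b) := by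
      intro z hz
      have h1 : i z ∈ i '' convexHull ℝ (e.1 : Set (Fin N → ℝ)) := ⟨z, hz, rfl⟩
      rw [himg, hset, image_pair, convexHull_pair] at h1
      exact h1
    refine ⟨fun x => dist (i (f.symm x).1) (i a), ?_, ?_⟩
    · rintro _ _ ⟨z, hz, rfl⟩ ⟨w, hw, rfl⟩
      have h1 := hdist z w hz hw
      refine h1.trans ?_
      simp only [Homeomorph.symm_apply_apply]
      rw [edist_dist, dist_segment (hseg _ hz) (hseg _ hw)]
    · rintro _ ⟨z, hz, rfl⟩ ⟨w, hw, hzw⟩
      have hwz : w = z := f.injective hzw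
      subst hwz
      have hw' : w.1 ∈ e.1 :=
        (Geometry.SimplicialComplex.vertex_mem_convexHull_iff hz e.2.1).1 hw
      rw [hs, Finset.mem_insert, Finset.mem_singleton] at hw'
      simp only [Homeomorph.symm_apply_apply]
      rcases hw' with h | h
      · left
        intro x _
        rw [h, dist_self]
        exact dist_nonneg
      · right
        rintro _ ⟨z', hz', rfl⟩
        rw [Homeomorph.symm_apply_apply, h]
        exact dist_segment_le (hseg _ hz')
  choose ρ hρ1 hρ2 using hcoord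
  apply fourPoint_of_local
  apply fourPoint_local (V := V) (O := O) (A := A) (ρ := ρ) hL hVfin hO hA hOA hdisj hcov hVO
  · intro e x y hx hy
    have h1 : edist x y ≤ ENNReal.ofReal |ρ e x - ρ e y| := by
      rw [← hρ1 e x y hx hy]
      exact le_iInf fun γ => edist_le_length γ.1
    rw [edist_dist] at h1
    exact (ENNReal.ofReal_le_ofReal_iff (abs_nonneg _)).1 h1
  · intro e x y γ hγ
    have hx : x ∈ A e := by have := hγ 0; rwa [γ.source] at this
    have hy : y ∈ A e := by have := hγ 1; rwa [γ.target] at this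
    rw [← hρ1 e x y hx hy]
    exact iInf_le_of_le ⟨γ, hγ⟩ le_rfl
  · intro e v hv hve
    exact hρ2 e v hv hve

end Pool.Agent.H971R3
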