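import Pool.Agent.H971R3.Detour

/-!
# The carpet with its intrinsic metric is a compact length space
-/

namespace Pool.Agent.H971R3

open Set Filter Topology

/-- The intrinsic distance of the carpet: the infimum of the `ℓ¹` lengths of curves. -/
noncomputable def DD (p q : ℝ × ℝ) : ℝ := sInf {L | Conn p q L}

theorem DD_bddBelow (p q : ℝ × ℝ) : BddBelow {L | Conn p q L} := ⟨0, fun _ h => h.1⟩

theorem DD_le {p q : ℝ × ℝ} {L : ℝ} (h : Conn p q L) : DD p q ≤ L := csInf_le (DD_bddBelow p q) h

theorem DD_nonempty {p q : ℝ × ℝ} (hp : p ∈ SS) (hq : q ∈ SS) : {L | Conn p q L}.Nonempty :=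
  ⟨_, conn_all hp hq⟩

theorem l1_le_DD {p q : ℝ × ℝ} (hp : p ∈ SS) (hq : q ∈ SS) : l1 p q ≤ DD p q :=
  le_csInf (DD_nonempty hp hq) fun _ h => Conn.l1_le h

theorem exists_conn_lt {p q : ℝ × ℝ} (hp : p ∈ SS) (hq : q ∈ SS) {ε : ℝ} (hε : 0 < ε) :
    ∃ L, Conn p q L ∧ L < DD p q + ε := by
  obtain ⟨L, h1, h2⟩ := exists_lt_of_csInf_lt (DD_nonempty hp hq) (lt_add_of_pos_right _ hε)
  exact ⟨L, h1, h2⟩

theorem DD_self {p : ℝ × ℝ} (hp : p ∈ SS) : DD p p = 0 :=
  le_antisymm (DD_le (Conn.refl hp)) (by rw [← l1_self p]; exact l1_le_DD hp hp)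

theorem DD_comm (p q : ℝ × ℝ) : DD p q = DD q p := by
  unfold DD
  congr 1
  ext L
  exact ⟨fun h => Conn.symm h, fun h => Conn.symm h⟩

theorem DD_triangle {p q r : ℝ × ℝ} (hp : p ∈ SS) (hq : q ∈ SS) (hr : r ∈ SS) :
    DD p r ≤ DD p q + DD q r := by
  apply le_of_forall_pos_le_add
  intro ε hε
  obtain ⟨L, h1, h2⟩ := exists_conn_lt hp hq (half_pos hε)
  obtain ⟨L', h1', h2'⟩ := exists_conn_lt hq hr (half_pos hε)
  have := DD_le (h1.trans h1')
  linarith

/-- The carpet, as a type of its own (it carries the intrinsic metric). -/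
@[ext]
structure Carpet : Type where
  /-- the underlying point of the plane -/
  pt : ℝ × ℝ
  mem : pt ∈ SS

noncomputable instance : MetricSpace Carpet where
  dist p q := DD p.pt q.pt
  dist_self p := DD_self p.mem
  dist_comm p q := DD_comm _ _
  dist_triangle p q r := DD_triangle p.mem q.mem r.mem
  eq_of_dist_eq_zero := by
    intro p q h
    apply Carpet.ext
    apply eq_of_l1_eq_zero
    exact le_antisymm ((l1_le_DD p.mem q.mem).trans h.le) (l1_nonneg _ _)

theorem Carpet.dist_def (p q : Carpet) : dist p q = DD p.pt q.pt := rfl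

theorem Carpet.l1_le (p q : Carpet) : l1 p.pt q.pt ≤ dist p q := l1_le_DD p.mem q.mem

theorem Carpet.dist_le (p q : Carpet) : dist p q ≤ 6 * l1 p.pt q.pt := DD_le (conn_all p.mem q.mem)

/-- A curve in the carpet gives a `1`-Lipschitz curve for the intrinsic metric. -/
theorem exists_curve {p q : Carpet} {L : ℝ} (h : Conn p.pt q.pt L) :
    ∃ γ : ℝ → Carpet, LipschitzWith 1 γ ∧ γ 0 = p ∧ γ L = q := by
  obtain ⟨hL, γ, h1, h2, h3, h4⟩ := h
  refine ⟨fun t => ⟨γ t, h1 t⟩, ?_, Carpet.ext h3, Carpet.ext h4⟩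
  have key : ∀ s t : ℝ, s ≤ t → DD (γ s) (γ t) ≤ t - s := by
    intro s t hst
    apply DD_le
    refine ⟨sub_nonneg.2 hst, fun u => γ (s + u), fun u => h1 _, fun u w => ?_, by simp, by simp⟩
    have := h2 (s + u) (s + w)
    rw [show s + u - (s + w) = u - w by ring] at this
    exact this
  apply LipschitzWith.of_dist_le_mul
  intro s t
  rw [NNReal.coe_one, one_mul, Carpet.dist_def, Real.dist_eq]
  rcases le_total s t with hst | hst
  · rw [abs_sub_comm, abs_of_nonneg (sub_nonneg.2 hst)]; exact key s t hst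
  · rw [abs_of_nonneg (sub_nonneg.2 hst), DD_comm]; exact key t s hst

theorem exists_path {p q : Carpet} {L : ℝ} (h : Conn p.pt q.pt L) :
    ∃ γ : Path p q, curveLength γ ≤ ENNReal.ofReal L := by
  have hL := h.1
  obtain ⟨γ, h1, h2, h3⟩ := exists_curve h
  have hcont : Continuous fun t : unitInterval => γ (L * t) :=
    h1.continuous.comp (continuous_const.mul continuous_subtype_val)
  refine ⟨⟨⟨fun t => γ (L * t), hcont⟩, by simp [h2], by simp [h3]⟩, ?_⟩
  unfold curveLength
  have e1 : eVariationOn (γ ∘ fun t : unitInterval => L * (t : ℝ)) univ ≤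
      (1 : NNReal) * eVariationOn (fun t : unitInterval => L * (t : ℝ)) univ :=
    (h1.lipschitzOnWith (s := univ)).comp_eVariationOn_le (mapsTo_univ _ _)
  have hmono : MonotoneOn (fun t : unitInterval => L * (t : ℝ)) univ := by
    intro s _ t _ hst
    exact mul_le_mul_of_nonneg_left hst hL
  have e2 := hmono.eVariationOn_eq (a := 0) (b := 1) (mem_univ _) (mem_univ _)
  have e3 : (univ : Set unitInterval) ∩ Icc 0 1 = univ := by
    ext t
    simp only [univ_inter, mem_Icc, mem_univ, iff_true]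
    exact ⟨unitInterval.nonneg', unitInterval.le_one'⟩
  rw [e3] at e2
  rw [e2] at e1
  simp only [Icc.coe_one, mul_one, Icc.coe_zero, mul_zero, sub_zero, ENNReal.coe_one, one_mul] at e1
  exact e1

theorem edist_le_curveLength {X : Type*} [MetricSpace X] {x y : X} (γ : Path x y) :
    edist x y ≤ curveLength γ := by
  have := eVariationOn.edist_le (fun t => γ t) (mem_univ (0 : unitInterval))
      (mem_univ (1 : unitInterval))
  simp only [Path.source, Path.target] at this
  exact this

theorem Carpet.isLengthSpace : IsLengthSpace Carpet := by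
  intro p q
  apply le_antisymm
  · exact le_iInf fun γ => edist_le_curveLength γ
  · apply ENNReal.le_of_forall_pos_le_add
    intro ε hε _
    obtain ⟨L, h1, h2⟩ := exists_conn_lt p.mem q.mem (show (0 : ℝ) < ε from hε)
    obtain ⟨γ, hγ⟩ := exists_path h1
    refine (iInf_le _ γ).trans (hγ.trans ?_)
    have e : edist p q + (ε : ENNReal) = ENNReal.ofReal (DD p.pt q.pt + ε) := by
      rw [← Carpet.dist_def p q, ENNReal.ofReal_add dist_nonneg ε.coe_nonneg,
        ENNReal.ofReal_coe_nnreal, edist_dist]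
    rw [e]
    exact ENNReal.ofReal_le_ofReal h2.le

theorem isOpen_UU (n : ℕ) : IsOpen (UU n) := by
  have : UU n = ⋃ k : ℤ, Ioo (((k * (2 * cc n + 1) + cc n : ℤ) : ℝ) / BB (n + 1))
      (((k * (2 * cc n + 1) + cc n + 1 : ℤ) : ℝ) / BB (n + 1)) := by
    ext x
    simp only [UU, mem_iUnion, mem_Ioo]
    rfl
  rw [this]
  exact isOpen_iUnion fun k => isOpen_Ioo

theorem isCompact_SS : IsCompact SS := by
  have h1 : IsCompact ((Icc (0 : ℝ) 1) ×ˢ (Icc (0 : ℝ) 1)) := isCompact_Icc.prod isCompact_Icc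
  have h2 : SS = ((Icc (0 : ℝ) 1) ×ˢ (Icc (0 : ℝ) 1)) ∩ ⋂ n, (UU n ×ˢ UU n)ᶜ := by
    ext ⟨x, y⟩
    simp only [SS, mem_inter_iff, mem_prod, mem_iInter, mem_compl_iff]
    constructor
    · rintro ⟨a, b, c⟩
      exact ⟨⟨a, b⟩, c⟩
    · rintro ⟨⟨a, b⟩, c⟩
      exact ⟨a, b, c⟩
  rw [h2]
  exact h1.inter_right (isClosed_iInter fun n => ((isOpen_UU n).prod (isOpen_UU n)).isClosed_compl)

/-- The obvious map from the planar set to the carpet. -/
def toCarpet (p : SS) : Carpet := ⟨p.1, p.2⟩

theorem continuous_toCarpet : Continuous toCarpet := by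
  have : LipschitzWith 12 toCarpet := by
    apply LipschitzWith.of_dist_le_mul
    intro p q
    refine (Carpet.dist_le _ _).trans ?_
    have h1 : |p.1.1 - q.1.1| ≤ dist p q := by
      rw [Subtype.dist_eq, Prod.dist_eq, ← Real.dist_eq]; exact le_max_left _ _
    have h2 : |p.1.2 - q.1.2| ≤ dist p q := by
      rw [Subtype.dist_eq, Prod.dist_eq, ← Real.dist_eq]; exact le_max_right _ _
    have h3 : ((12 : NNReal) : ℝ) = 12 := by norm_num
    rw [h3]
    unfold l1 toCarpet
    linarith
  exact this.continuous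

instance : CompactSpace Carpet := by
  have : CompactSpace SS := isCompact_iff_compactSpace.1 isCompact_SS
  constructor
  have : (univ : Set Carpet) = range toCarpet := by
    ext p
    simp only [mem_univ, true_iff]
    exact ⟨⟨p.pt, p.mem⟩, rfl⟩
  rw [this]
  exact isCompact_range continuous_toCarpet

theorem Carpet.continuous_fst : Continuous fun p : Carpet => p.pt.1 := by
  have : LipschitzWith 1 (fun p : Carpet => p.pt.1) := by
    apply LipschitzWith.of_dist_le_mul
    intro p q
    rw [NNReal.coe_one, one_mul, Real.dist_eq]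
    refine le_trans ?_ (Carpet.l1_le p q)
    unfold l1
    linarith [abs_nonneg (p.pt.2 - q.pt.2)]
  exact this.continuous

theorem Carpet.continuous_snd : Continuous fun p : Carpet => p.pt.2 := by
  have : LipschitzWith 1 (fun p : Carpet => p.pt.2) := by
    apply LipschitzWith.of_dist_le_mul
    intro p q
    rw [NNReal.coe_one, one_mul, Real.dist_eq]
    refine le_trans ?_ (Carpet.l1_le p q)
    unfold l1
    linarith [abs_nonneg (p.pt.1 - q.pt.1)]
  exact this.continuous

end Pool.Agent.H971R3
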