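import Pool.Agent.H971R3.Dim
import Pool.Agent.H971R3.Count

/-!
# The streets of the carpet and the main obstruction
-/

namespace Pool.Agent.H971R3

open Set Filter Topology

/-- Coordinates of streets: the line `x = a` (or `y = a`) misses all the holes. -/
def CC : Set ℝ := {a | a ∈ Icc (0 : ℝ) 1 ∧ ∀ n, a ∉ UU n}

theorem mem_SS_left {a b : ℝ} (ha : a ∈ CC) (hb : b ∈ Icc (0 : ℝ) 1) : (a, b) ∈ SS :=
  ⟨ha.1, hb, fun n h => ha.2 n h.1⟩

theorem mem_SS_right {a b : ℝ} (ha : a ∈ Icc (0 : ℝ) 1) (hb : b ∈ CC) : (a, b) ∈ SS :=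
  ⟨ha, hb.1, fun n h => hb.2 n h.2⟩

theorem street_horizontal {a a' b : ℝ} (ha : a ∈ Icc (0 : ℝ) 1) (ha' : a' ∈ Icc (0 : ℝ) 1)
    (hb : b ∈ CC) : Conn (a, b) (a', b) |a - a'| := by
  have key : ∀ {a a' : ℝ}, a ∈ Icc (0 : ℝ) 1 → a' ∈ Icc (0 : ℝ) 1 → a ≤ a' →
      Conn (a, b) (a', b) (a' - a) := by
    intro a a' ha ha' h
    have := conn_of_lip (f := fun t => (t, b)) h one_pos
      (fun t h1 h2 => mem_SS_right ⟨ha.1.trans h1, h2.trans ha'.2⟩ hb)
      (fun s t _ hst _ => by
        unfold l1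
        simp only [sub_self, abs_zero, add_zero, one_mul]
        rw [abs_sub_comm, abs_of_nonneg (sub_nonneg.2 hst)])
    simpa using this
  rcases le_total a a' with h | h
  · rw [abs_sub_comm, abs_of_nonneg (sub_nonneg.2 h)]; exact key ha ha' h
  · rw [abs_of_nonneg (sub_nonneg.2 h)]; exact (key ha' ha h).symm

theorem street_vertical {a b b' : ℝ} (ha : a ∈ CC) (hb : b ∈ Icc (0 : ℝ) 1)
    (hb' : b' ∈ Icc (0 : ℝ) 1) : Conn (a, b) (a, b') |b - b'| :=
  (street_horizontal hb hb' ha).swap

/-- A crossing of two streets. -/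
def crossing (a b : ℝ) (ha : a ∈ CC) (hb : b ∈ CC) : Carpet := ⟨(a, b), mem_SS_left ha hb.1⟩

theorem dist_crossing {a b a' b' : ℝ} (ha : a ∈ CC) (hb : b ∈ CC) (ha' : a' ∈ CC) (hb' : b' ∈ CC) :
    dist (crossing a b ha hb) (crossing a' b' ha' hb') = |a - a'| + |b - b'| := by
  apply le_antisymm
  · exact DD_le ((street_horizontal ha.1 ha'.1 hb).trans (street_vertical ha' hb.1 hb'.1))
  · exact Carpet.l1_le (crossing a b ha hb) (crossing a' b' ha' hb')

/-- The bad grid points of level `n` inside the grid of mesh `1 / BB m`. -/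
theorem bad_level {m n : ℕ} (h : n < m) :
    ∃ T : Finset ℤ, (∀ k : ℤ, 0 ≤ k → k ≤ BB m → (k : ℝ) / BB m ∈ UU n → k ∈ T) ∧
      (T.card : ℝ) ≤ (BB m : ℝ) / (2 * cc n + 1) := by
  obtain ⟨D, hD⟩ := BB_dvd (show n + 1 ≤ m from h)
  have hn := BBR_pos n
  have hm := BBR_pos m
  have hn1 := BBR_pos (n + 1)
  have hc := cc_pos n
  have hD' : ((BB m : ℤ) : ℝ) = BB (n + 1) * D := by exact_mod_cast hD
  have hD0 : (0 : ℝ) < D := by
    by_contra h0
    push Not at h0
    nlinarith
  have hD0' : 0 < D := by exact_mod_cast hD0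
  refine ⟨(Finset.Ico 0 (BB n)).biUnion fun j =>
    Finset.Ioo ((j * (2 * cc n + 1) + cc n) * D) ((j * (2 * cc n + 1) + cc n + 1) * D), ?_, ?_⟩
  · rintro k hk0 hkm ⟨j, h1, h2⟩
    have e : (k : ℝ) / BB m = ((k : ℝ) / D) / BB (n + 1) := by
      rw [hD']; field_simp
    rw [e, div_lt_div_iff_of_pos_right hn1] at h1 h2
    rw [lt_div_iff₀ hD0] at h1
    rw [div_lt_iff₀ hD0] at h2
    have h1' : (j * (2 * cc n + 1) + cc n) * D < k := by exact_mod_cast h1
    have h2' : k < (j * (2 * cc n + 1) + cc n + 1) * D := by exact_mod_cast h2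
    rw [Finset.mem_biUnion]
    refine ⟨j, ?_, Finset.mem_Ioo.2 ⟨h1', h2'⟩⟩
    rw [Finset.mem_Ico]
    constructor
    · by_contra hj
      push Not at hj
      have hj1 : j ≤ -1 := by omega
      have : (j * (2 * cc n + 1) + cc n + 1) * D ≤ 0 := by
        apply mul_nonpos_of_nonpos_of_nonneg _ hD0'.le
        nlinarith
      omega
    · by_contra hj
      push Not at hj
      have : BB m ≤ (j * (2 * cc n + 1) + cc n) * D := by
        rw [hD]
        apply mul_le_mul_of_nonneg_right _ hD0'.le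
        simp only [BB]
        nlinarith
      omega
  · have h1 : ((Finset.Ico 0 (BB n)).biUnion fun j =>
      Finset.Ioo ((j * (2 * cc n + 1) + cc n) * D) ((j * (2 * cc n + 1) + cc n + 1) * D)).card ≤
        (Finset.Ico 0 (BB n)).card * D.toNat := by
      apply Finset.card_biUnion_le_card_mul
      intro j _
      rw [Int.card_Ioo]
      apply Int.toNat_le_toNat
      have : (j * (2 * cc n + 1) + cc n + 1) * D - (j * (2 * cc n + 1) + cc n) * D = D := by ring
      omega
    have h2 : ((Finset.Ico 0 (BB n)).card : ℝ) = BB n := by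
      rw [Int.card_Ico]
      have : ((BB n - 0).toNat : ℤ) = BB n := by
        rw [sub_zero]; exact Int.toNat_of_nonneg (BB_pos n).le
      exact_mod_cast this
    have h3 : (D.toNat : ℝ) = D := by
      have : (D.toNat : ℤ) = D := Int.toNat_of_nonneg hD0'.le
      exact_mod_cast this
    have h4 : ((((Finset.Ico 0 (BB n)).biUnion fun j =>
      Finset.Ioo ((j * (2 * cc n + 1) + cc n) * D) ((j * (2 * cc n + 1) + cc n + 1) * D)).card : ℕ) :
        ℝ) ≤ BB n * D := by
      rw [← h2, ← h3]
      exact_mod_cast h1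
    refine h4.trans (le_of_eq ?_)
    rw [hD', BB_succ_real]
    have : (2 * (cc n : ℝ) + 1) ≠ 0 := by
      have : (0 : ℝ) < cc n := by exact_mod_cast hc
      positivity
    field_simp

theorem sum_inv_le (m : ℕ) : ∑ n ∈ Finset.range m, (1 : ℝ) / (2 * cc n + 1) ≤ 1 / 96 := by
  have h1 : ∀ n ∈ Finset.range m, (1 : ℝ) / (2 * cc n + 1) ≤ (1 / 128) * (1 / 4) ^ n := by
    intro n _
    have : (cc n : ℝ) = 64 * 4 ^ n := by simp [cc]
    rw [this]
    have h4 : (0 : ℝ) < 4 ^ n := by positivity
    have e : (1 / 128 : ℝ) * (1 / 4) ^ n = 1 / (128 * 4 ^ n) := by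
      rw [one_div_pow]; field_simp
    rw [e]
    apply one_div_le_one_div_of_le (by positivity)
    linarith
  have h2 := Finset.sum_le_sum h1
  rw [← Finset.mul_sum, geom_sum_eq (by norm_num)] at h2
  refine h2.trans ?_
  have : (0 : ℝ) ≤ (1 / 4) ^ m := by positivity
  have e : (1 / 128 : ℝ) * (((1 / 4) ^ m - 1) / (1 / 4 - 1)) = 1 / 96 * (1 - (1 / 4) ^ m) := by
    ring
  rw [e]
  nlinarith

/-- The good grid: for every `m` there is a monotone sequence of street coordinates, with few
big jumps. -/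
theorem exists_grid (m : ℕ) : ∃ (N : ℕ) (c : ℕ → ℝ), (N : ℤ) = BB m ∧ Monotone c ∧
    (∀ k ≤ N, c k ∈ CC) ∧ c 0 = 0 ∧ c N = 1 ∧
    ∑ k ∈ Finset.range N, max (c (k + 1) - c k - 1 / N) 0 ≤ 1 / 48 := by
  classical
  obtain ⟨N, hN⟩ : ∃ N : ℕ, (N : ℤ) = BB m := ⟨(BB m).toNat, Int.toNat_of_nonneg (BB_pos m).le⟩
  have hNR : (N : ℝ) = BB m := by exact_mod_cast hN
  have hN0 : (0 : ℝ) < N := by rw [hNR]; exact BBR_pos m
  set good : ℕ → Prop := fun k => (k : ℝ) / N ∈ CC with hgood
  have good0 : good 0 := by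
    simp only [hgood, Nat.cast_zero, zero_div]
    exact ⟨by simp, zero_not_mem_UU⟩
  have goodN : good N := by
    simp only [hgood]
    rw [div_self hN0.ne']
    exact ⟨by simp, one_not_mem_UU⟩
  set j : ℕ → ℕ := fun k => Nat.findGreatest good k with hj
  have jle : ∀ k, j k ≤ k := fun k => Nat.findGreatest_le k
  have jgood : ∀ k, good (j k) := fun k => Nat.findGreatest_spec (Nat.zero_le k) good0
  have jmono : Monotone j := fun a b h => Nat.findGreatest_mono_right _ h
  have jeq : ∀ k, good k → j k = k := fun k hk =>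
    le_antisymm (jle k) (Nat.le_findGreatest le_rfl hk)
  set c : ℕ → ℝ := fun k => (j k : ℝ) / N with hc
  have cmono : Monotone c := fun a b h =>
    div_le_div_of_nonneg_right (by exact_mod_cast jmono h) hN0.le
  -- the bad points
  set bad : Finset ℕ := (Finset.range (N + 1)).filter fun k => ¬ good k with hbad
  have hbadcard : (bad.card : ℝ) ≤ N * (1 / 96) := by
    choose T hT1 hT2 using fun n : Fin m => bad_level n.2
    have hsub : bad ⊆ (Finset.univ.biUnion T).image Int.toNat := by
      intro k hk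
      rw [hbad, Finset.mem_filter, Finset.mem_range] at hk
      obtain ⟨hk1, hk2⟩ := hk
      have hkN : (k : ℝ) ≤ N := by exact_mod_cast (by omega : k ≤ N)
      have hI : (k : ℝ) / N ∈ Icc (0 : ℝ) 1 :=
        ⟨by positivity, by rw [div_le_one hN0]; exact hkN⟩
      have : ∃ n, (k : ℝ) / N ∈ UU n := by
        by_contra hcon
        push Not at hcon
        exact hk2 ⟨hI, hcon⟩
      obtain ⟨n, hn⟩ := this
      have hnm : n < m := by
        by_contra hnm
        push Not at hnm
        have h1 := mult_not_mem (j := m) (m := n) (by omega) (k : ℤ)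
        apply h1
        rw [← hNR]
        simpa using hn
      rw [Finset.mem_image]
      refine ⟨(k : ℤ), ?_, by simp⟩
      rw [Finset.mem_biUnion]
      refine ⟨⟨n, hnm⟩, Finset.mem_univ _, hT1 ⟨n, hnm⟩ k (by omega) (by rw [← hN]; omega) ?_⟩
      rw [← hNR]
      simpa using hn
    have h1 : bad.card ≤ ∑ n : Fin m, (T n).card :=
      (Finset.card_le_card hsub).trans (Finset.card_image_le.trans Finset.card_biUnion_le)
    have h2 : (bad.card : ℝ) ≤ ∑ n : Fin m, ((T n).card : ℝ) := by exact_mod_cast h1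
    have h3 : ∑ n : Fin m, ((T n).card : ℝ) ≤ ∑ n : Fin m, (N : ℝ) * (1 / (2 * cc n + 1)) := by
      apply Finset.sum_le_sum
      intro n _
      refine (hT2 n).trans (le_of_eq ?_)
      rw [hNR]; ring
    have h4 : ∑ n : Fin m, (N : ℝ) * (1 / (2 * cc n + 1)) =
        N * ∑ n ∈ Finset.range m, (1 : ℝ) / (2 * cc n + 1) := by
      rw [← Finset.mul_sum, Fin.sum_univ_eq_sum_range (fun n => (1 : ℝ) / (2 * cc n + 1)) m]
    rw [h4] at h3
    exact h2.trans (h3.trans (mul_le_mul_of_nonneg_left (sum_inv_le m) hN0.le))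
  have c0 : c 0 = 0 := by simp [hc, jeq 0 good0]
  have cN : c N = 1 := by simp only [hc, jeq N goodN]; exact div_self hN0.ne'
  refine ⟨N, c, hN, cmono, fun k _ => jgood k, c0, cN, ?_⟩
  have hsum : ∑ k ∈ Finset.range N, (c (k + 1) - c k) = 1 := by
    rw [Finset.sum_range_sub, c0, cN, sub_zero]
  have e1 : ∀ k ∈ Finset.range N, max (c (k + 1) - c k - 1 / N) 0 ≤
      (c (k + 1) - c k) - 1 / N + (1 / N) * ((if k ∈ bad then 1 else 0) +
        (if k + 1 ∈ bad then 1 else 0)) := by
    intro k hk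
    have hkN := Finset.mem_range.1 hk
    have hnn : 0 ≤ c (k + 1) - c k := sub_nonneg.2 (cmono (Nat.le_succ k))
    have hpos : (0 : ℝ) < 1 / N := by positivity
    by_cases h1 : good k
    · by_cases h2 : good (k + 1)
      · have e : c (k + 1) - c k = 1 / N := by
          simp only [hc, jeq k h1, jeq (k + 1) h2]
          push_cast
          field_simp
          ring
        rw [e, sub_self, max_self]
        have : 0 ≤ (if k ∈ bad then (1 : ℝ) else 0) + (if k + 1 ∈ bad then 1 else 0) := by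
          split_ifs <;> norm_num
        positivity
      · have hb : k + 1 ∈ bad := by
          rw [hbad, Finset.mem_filter, Finset.mem_range]
          exact ⟨by omega, h2⟩
        rw [if_pos hb]
        have : (0 : ℝ) ≤ (if k ∈ bad then (1 : ℝ) else 0) := by split_ifs <;> norm_num
        apply max_le <;> nlinarith
    · have hb : k ∈ bad := by
        rw [hbad, Finset.mem_filter, Finset.mem_range]
        exact ⟨by omega, h1⟩
      rw [if_pos hb]
      have : (0 : ℝ) ≤ (if k + 1 ∈ bad then (1 : ℝ) else 0) := by split_ifs <;> norm_num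
      apply max_le <;> nlinarith
  refine (Finset.sum_le_sum e1).trans ?_
  rw [Finset.sum_add_distrib, Finset.sum_sub_distrib, hsum, Finset.sum_const, Finset.card_range,
    nsmul_eq_mul, mul_one_div_cancel hN0.ne', sub_self, zero_add, ← Finset.mul_sum,
    Finset.sum_add_distrib]
  have s1 : ∑ k ∈ Finset.range N, (if k ∈ bad then (1 : ℝ) else 0) ≤ bad.card := by
    rw [Finset.sum_ite_mem, Finset.sum_const, nsmul_eq_mul, mul_one]
    exact_mod_cast Finset.card_le_card Finset.inter_subset_right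
  have s2 : ∑ k ∈ Finset.range N, (if k + 1 ∈ bad then (1 : ℝ) else 0) ≤ bad.card := by
    rw [← Finset.sum_filter, Finset.sum_const, nsmul_eq_mul, mul_one]
    have : ((Finset.range N).filter fun k => k + 1 ∈ bad).card ≤ bad.card := by
      apply Finset.card_le_card_of_injOn (fun k => k + 1)
      · intro k hk
        exact (Finset.mem_filter.1 hk).2
      · intro a _ b _ hab
        simpa using hab
    exact_mod_cast this
  have : (1 / (N : ℝ)) * (∑ k ∈ Finset.range N, (if k ∈ bad then (1 : ℝ) else 0) +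
      ∑ k ∈ Finset.range N, (if k + 1 ∈ bad then (1 : ℝ) else 0)) ≤
      (1 / N) * (2 * (N * (1 / 96))) := by
    apply mul_le_mul_of_nonneg_left _ (by positivity)
    linarith
  refine this.trans (le_of_eq ?_)
  field_simp
  norm_num

/-- The main obstruction: no `1`-Lipschitz map from the carpet to a space which satisfies the four
point inequality at a small scale can distort all distances by at most `1 / 10`. -/
theorem no_map {M : Type*} [MetricSpace M] {η : ℝ} (hη : 0 < η) (h4 : FourPointAt M η)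
    (π : Carpet → M) (h1 : ∀ x y, dist (π x) (π y) ≤ dist x y)
    (h2 : ∀ x y, dist x y - 1 / 10 ≤ dist (π x) (π y)) : False := by
  classical
  obtain ⟨m, hm⟩ := exists_BB (4 / η)
  obtain ⟨N, c, hN, cmono, cmem, c0, cN, hsum⟩ := exists_grid m
  have hNR : (N : ℝ) = BB m := by exact_mod_cast hN
  have hN0 : 0 < N := by
    have : (0 : ℝ) < N := by rw [hNR]; exact BBR_pos m
    exact_mod_cast this
  have hN0R : (0 : ℝ) < N := by exact_mod_cast hN0
  have h4' : FourPointAt M (2 * (η / 2)) := by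
    rw [mul_div_cancel₀ η (by norm_num)]; exact h4
  let P : ℕ → ℕ → M := fun k l =>
    if h : k ≤ N ∧ l ≤ N then π (crossing (c k) (c l) (cmem k h.1) (cmem l h.2))
    else π (crossing (c 0) (c 0) (cmem 0 (Nat.zero_le N)) (cmem 0 (Nat.zero_le N)))
  have := count_main (half_pos hη) h4' hN0 c cmono (by rw [c0, cN]; norm_num)
    (ε := 1 / 10) (by norm_num) hsum P
    (by
      intro k l k' l' hk hl hk' hl'
      simp only [P]
      rw [dif_pos ⟨hk, hl⟩, dif_pos ⟨hk', hl'⟩]
      refine (h1 _ _).trans (le_of_eq ?_)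
      exact dist_crossing _ _ _ _)
    (by
      intro k l k' l' hk hl hk' hl'
      simp only [P]
      rw [dif_pos ⟨hk, hl⟩, dif_pos ⟨hk', hl'⟩]
      refine le_trans (le_of_eq ?_) (h2 _ _)
      rw [dist_crossing])
  rw [c0, cN] at this
  have h5 : 2 / (η / 2 * N) ≤ 1 := by
    rw [div_le_one (by positivity), hNR]
    rw [div_lt_iff₀ hη] at hm
    linarith
  linarith

end Pool.Agent.H971R3
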